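import Pool.Agent.T6.H53.CT.Unr
set_option autoImplicit false

/-!
Every tower of graphs over a number field becomes integral after scaling the coordinates.
-/

namespace Pool.Agent.T6.H53.CT

open Pool.Agent.Y797.TW (Tower)

section scale

variable {K : Type*} [Field K] {n : ℕ}

theorem exists_nat_multiple [NumberField K] (S : Finset K) :
    ∃ N : ℕ, N ≠ 0 ∧ ∀ a ∈ S, IsIntegral ℤ ((N : K) * a) := by
  classical
  induction S using Finset.induction_on with
  | empty => exact ⟨1, one_ne_zero, fun a ha => absurd ha (Finset.notMem_empty a)⟩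
  | insert b S hb ih =>
    obtain ⟨N, hN, h⟩ := ih
    have halg : IsAlgebraic ℤ b :=
      (IsFractionRing.isAlgebraic_iff ℤ ℚ K).2 (Algebra.IsAlgebraic.isAlgebraic b)
    obtain ⟨y, hy, hyb⟩ := halg.exists_integral_multiple
    refine ⟨N * y.natAbs, mul_ne_zero hN (Int.natAbs_ne_zero.2 hy), fun a ha => ?_⟩
    have hnat : ∀ k : ℕ, IsIntegral ℤ ((k : ℕ) : K) := fun k => by
      have h1 := isIntegral_algebraMap (R := ℤ) (A := K) (x := (k : ℤ))
      simpa using h1
    rcases Finset.mem_insert.1 ha with rfl | ha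
    · have h1 : IsIntegral ℤ ((y : K) * a) := by
        rw [← zsmul_eq_mul]
        exact hyb
      have h2 : IsIntegral ℤ (((y.natAbs : ℕ) : K) * a) := by
        rcases Int.natAbs_eq y with h3 | h3
        · have h4 : (y : K) = ((y.natAbs : ℕ) : K) := by
            conv_lhs => rw [h3]
            rw [Int.cast_natCast]
          rwa [h4] at h1
        · have h4 : (y : K) = -((y.natAbs : ℕ) : K) := by
            conv_lhs => rw [h3]
            rw [Int.cast_neg, Int.cast_natCast]
          rw [h4, neg_mul] at h1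
          simpa using h1.neg
      have e : (((N * y.natAbs : ℕ) : ℕ) : K) * a = (N : K) * (((y.natAbs : ℕ) : K) * a) := by
        push_cast
        ring
      rw [e]
      exact (hnat N).mul h2
    · have e : (((N * y.natAbs : ℕ) : ℕ) : K) * a = ((y.natAbs : ℕ) : K) * ((N : K) * a) := by
        push_cast
        ring
      rw [e]
      exact (hnat _).mul (h a ha)

/-- The scaling of the coordinates. -/
theorem exists_scales [NumberField K] (A : Tower K n) (hG : A.Graphs) :
    ∃ D : Fin (n + 1) → K, Scales A D := by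
  classical
  have hchar : CharZero K := inferInstance
  -- the exponents
  have hexp : ∀ (j : Fin (n + 1)) i (m : Fin (n + 1) →₀ ℕ), (A.phi j i).coeff m ≠ 0 →
      ∀ l, l ≤ j → m l = 0 := by
    intro j i m hm l hl
    by_contra hne
    exact absurd hl (not_le.2 (hG.1 j i l ((MvPolynomial.mem_vars_iff_mem_support l).2
      ⟨m, MvPolynomial.mem_support_iff.2 hm, Finsupp.mem_support_iff.2 hne⟩)))
  have key : ∀ k : ℕ, k ≤ n + 1 → ∃ D : Fin (n + 1) → ℕ, (∀ j, D j ≠ 0) ∧
      ∀ j : Fin (n + 1), n + 1 - k ≤ j → ∀ i m,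
        IsIntegral ℤ ((D j : K) * (A.phi j i).coeff m / ∏ l, (D l : K) ^ m l) := by
    intro k
    induction k with
    | zero =>
      intro _
      exact ⟨fun _ => 1, fun _ => one_ne_zero, fun j hj => absurd j.2 (by omega)⟩
    | succ k ih =>
      intro hk
      obtain ⟨D, h1, h2⟩ := ih (by omega)
      set j0 : Fin (n + 1) := ⟨n + 1 - (k + 1), by omega⟩ with hj0
      obtain ⟨N, hN0, hN⟩ := exists_nat_multiple
        (Finset.univ.biUnion fun i : Fin (A.r j0 + 1) => (A.phi j0 i).support.image fun m =>
          (A.phi j0 i).coeff m / ∏ l, (D l : K) ^ m l)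
      have hcongr : ∀ j, j0 ≤ j → ∀ i m, (A.phi j i).coeff m ≠ 0 →
          ∏ l, ((Function.update D j0 N) l : K) ^ m l = ∏ l, (D l : K) ^ m l := by
        intro j hj i m hm
        refine Finset.prod_congr rfl fun l _ => ?_
        by_cases hl : l = j0
        · rw [hexp j i m hm l (hl ▸ hj), pow_zero, pow_zero]
        · rw [Function.update_of_ne hl]
      refine ⟨Function.update D j0 N, fun j => ?_, fun j hj i m => ?_⟩
      · by_cases he : j = j0
        · rw [he, Function.update_self]
          exact hN0
        · rw [Function.update_of_ne he]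
          exact h1 j
      · by_cases hm : (A.phi j i).coeff m = 0
        · rw [hm, mul_zero, zero_div]
          exact isIntegral_zero
        · by_cases he : j = j0
          · subst he
            rw [hcongr j0 le_rfl i m hm, Function.update_self, mul_div_assoc]
            refine hN _ (Finset.mem_biUnion.2 ⟨i, Finset.mem_univ i, Finset.mem_image.2
              ⟨m, MvPolynomial.mem_support_iff.2 hm, rfl⟩⟩)
          · have hlt : j0 < j := by
              refine lt_of_le_of_ne ?_ (Ne.symm he)
              rw [Fin.le_def]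
              exact hj
            rw [hcongr j hlt.le i m hm, Function.update_of_ne he]
            refine h2 j ?_ i m
            have h3 : (j0 : ℕ) < j := hlt
            have h4 : (j0 : ℕ) = n + 1 - (k + 1) := rfl
            omega
  obtain ⟨D, h1, h2⟩ := key (n + 1) le_rfl
  exact ⟨fun j => (D j : K), fun j => Nat.cast_ne_zero.2 (h1 j), fun j i m =>
    h2 j (by omega) i m⟩

theorem exists_scalesG [NumberField K] (A : Tower K n) (D : Fin (n + 1) → K) :
    ∃ M : ℕ, M ≠ 0 ∧ ∀ lam : K, IsIntegral ℤ (lam / M) → ScalesG A D lam := by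
  classical
  obtain ⟨M, hM0, hM⟩ := exists_nat_multiple
    (A.g.support.image fun m => A.g.coeff m / ((∏ l, D l ^ m l) * ∏ j, D j ^ (A.r j + 1)))
  refine ⟨M, hM0, fun lam hlam m => ?_⟩
  by_cases hm : A.g.coeff m = 0
  · rw [hm, mul_zero, zero_div]
    exact isIntegral_zero
  · have h1 := hM _ (Finset.mem_image.2 ⟨m, MvPolynomial.mem_support_iff.2 hm, rfl⟩)
    have hM' : (M : K) ≠ 0 := Nat.cast_ne_zero.2 hM0
    have e : lam * A.g.coeff m / ((∏ l, D l ^ m l) * ∏ j, D j ^ (A.r j + 1)) =
        (lam / M) * ((M : K) * (A.g.coeff m / ((∏ l, D l ^ m l) * ∏ j, D j ^ (A.r j + 1)))) := by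
      rw [← mul_assoc, div_mul_cancel₀ _ hM', mul_div_assoc]
    rw [e]
    exact hlam.mul h1

theorem scales_one {A : Tower K n} (hI : A.Integral) : Scales A fun _ => 1 := by
  refine ⟨fun _ => one_ne_zero, fun j i m => ?_⟩
  simp only [one_pow, Finset.prod_const_one, div_one, one_mul]
  exact hI.1 j i m

theorem scalesG_one {A : Tower K n} (hI : A.Integral) {lam : K} (hlam : IsIntegral ℤ lam) :
    ScalesG A (fun _ => 1) lam := by
  intro m
  simp only [one_pow, Finset.prod_const_one, div_one, mul_one]
  exact hlam.mul (hI.2 m)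

/-- The scaling of the coordinates and the divisor `M` of `λ`. -/
theorem exists_scaling [NumberField K] (A : Tower K n) (hG : A.Graphs) :
    ∃ M : ℕ, M ≠ 0 ∧ (A.Integral → M = 1) ∧ ∃ D : Fin (n + 1) → K, Scales A D ∧
      ∀ lam : K, IsIntegral ℤ (lam / M) → ScalesG A D lam := by
  by_cases hI : A.Integral
  · refine ⟨1, one_ne_zero, fun _ => rfl, fun _ => 1, scales_one hI, fun lam hlam => ?_⟩
    rw [Nat.cast_one, div_one] at hlam
    exact scalesG_one hI hlam
  · obtain ⟨D, hD⟩ := exists_scales A hG
    obtain ⟨M, hM, h⟩ := exists_scalesG A D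
    exact ⟨M, hM, fun h => absurd h hI, D, hD, h⟩

end scale

end Pool.Agent.T6.H53.CT
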