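import Pool.Agent.T6.H53.CT.Ring
import Pool.Agent.TH333.CY.Unram
import Pool.Agent.Y797.TW.Unr
set_option autoImplicit false

/-!
The symbols are unramified at all discrete valuations.
-/

namespace Pool.Agent.T6.H53.CT

open scoped WithZero

open Pool.Agent.TH826.MK

open Pool.Agent.TH333.CY (cfac cmon all_one val_pow_sub_one)

open Pool.Agent.Y797.TW (Tower)

section scale

variable {K : Type*} [Field K] {n : ℕ}

/-- The polynomials `D_j φ_{j,i}(x_0 / D_0, ..., x_n / D_n)` have integral coefficients. -/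
def Scales (A : Tower K n) (D : Fin (n + 1) → K) : Prop :=
  (∀ j, D j ≠ 0) ∧ ∀ j i m, IsIntegral ℤ (D j * (A.phi j i).coeff m / ∏ l, D l ^ m l)

/-- The polynomial `λ g(x_0 / D_0, ..., x_n / D_n) / ∏_j D_j^{r_j + 1}` has integral coefficients. -/
def ScalesG (A : Tower K n) (D : Fin (n + 1) → K) (lam : K) : Prop :=
  ∀ m, IsIntegral ℤ (lam * A.g.coeff m / ((∏ l, D l ^ m l) * ∏ j, D j ^ (A.r j + 1)))

end scale

section val

variable {K L : Type*} [Field K] [Field L] {n : ℕ} (F : MvPolynomial (Fin (n + 1)) K →+* L)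
  (v : Valuation L ℤᵐ⁰)

/-- polynomials that are integral after scaling, in integral elements -/
theorem val_le_one_scaled {p : MvPolynomial (Fin (n + 1)) K} {D : Fin (n + 1) → K}
    (hD : ∀ j, D j ≠ 0) {e : K} (hp : ∀ m, IsIntegral ℤ (e * p.coeff m / ∏ l, D l ^ m l))
    (hx : ∀ l ∈ p.vars, v (F (MvPolynomial.C (D l)) * F (MvPolynomial.X l)) ≤ 1) :
    v (F (MvPolynomial.C e) * F p) ≤ 1 := by
  classical
  rw [p.as_sum, map_sum, Finset.mul_sum]
  refine Valuation.map_sum_le _ fun m hm => ?_
  have hP : (∏ l, D l ^ m l) ≠ 0 := Finset.prod_ne_zero_iff.2 fun l _ => pow_ne_zero _ (hD l)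
  have e1 : F (MvPolynomial.C e) * F (MvPolynomial.monomial m (p.coeff m)) =
      F (MvPolynomial.C (e * p.coeff m / ∏ l, D l ^ m l)) *
        ∏ l, (F (MvPolynomial.C (D l)) * F (MvPolynomial.X l)) ^ m l := by
    have e2 : ∏ l, (F (MvPolynomial.C (D l)) * F (MvPolynomial.X l)) ^ m l =
        F (MvPolynomial.C (∏ l, D l ^ m l)) * ∏ l, F (MvPolynomial.X l) ^ m l := by
      simp only [mul_pow, Finset.prod_mul_distrib, map_prod, map_pow]
    have e3 : F (MvPolynomial.monomial m (p.coeff m)) =
        F (MvPolynomial.C (p.coeff m)) * ∏ l, F (MvPolynomial.X l) ^ m l := by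
      rw [MvPolynomial.monomial_eq, map_mul, Finsupp.prod_fintype _ _ (fun i => pow_zero _)]
      simp only [map_prod, map_pow]
    have e4 : F (MvPolynomial.C (e * p.coeff m / ∏ l, D l ^ m l)) *
        F (MvPolynomial.C (∏ l, D l ^ m l)) = F (MvPolynomial.C e) *
        F (MvPolynomial.C (p.coeff m)) := by
      rw [← map_mul, ← map_mul, ← map_mul, ← map_mul, div_mul_cancel₀ _ hP]
    rw [e2, e3, ← mul_assoc, ← mul_assoc, e4]
  rw [e1, map_mul]
  refine mul_le_one' ?_ ?_
  · exact val_le_one_of_integral v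
      (map_isIntegral_int (F.comp (MvPolynomial.C : K →+* MvPolynomial (Fin (n + 1)) K)) (hp m))
  · rw [map_prod]
    refine Finset.prod_le_one' fun l _ => ?_
    rw [map_pow]
    by_cases hl : m l = 0
    · rw [hl, pow_zero]
    · refine pow_le_one' (hx l ((MvPolynomial.mem_vars_iff_mem_support l).2 ⟨m, hm, ?_⟩)) _
      exact Finsupp.mem_support_iff.2 hl

end val

section Unram

variable {K : Type*} [Field K] {s n : ℕ} {A : Tower K n} {lam : K} {κ : Fin (s + 1) → K}

variable {L : Type*} [Field L] (f : TOpen A lam κ →+* L)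

/-- the composite map from the polynomials in `x_0, ..., x_n` -/
noncomputable def xT : MvPolynomial (Fin (n + 1)) K →+* L :=
  ((f.comp (toT A lam κ)).comp (tpol A lam κ)).comp
    (MvPolynomial.rename (Sum.inr : Fin (n + 1) → Fin (s + 1) ⊕ Fin (n + 1))).toRingHom

theorem xT_apply (p : MvPolynomial (Fin (n + 1)) K) :
    xT f p = f (toT A lam κ (tpol A lam κ (MvPolynomial.rename Sum.inr p))) := rfl

/-- the composite map from the coefficient field -/
noncomputable def cT : K →+* L := f.comp (tcst A lam κ)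

theorem xT_C (y : K) : xT f (MvPolynomial.C y) = cT f y := by
  rw [xT_apply, MvPolynomial.rename_C]
  rfl

/-- the image of `z_j` -/
noncomputable def zT (j : Fin (s + 1)) : L :=
  f (toT A lam κ (tpol A lam κ (MvPolynomial.X (Sum.inl j))))

theorem map_cfac (j : Fin (s + 1)) : f (toT A lam κ (tpol A lam κ (cfac κ n j))) =
    zT f j ^ 2 + cT f (κ j) * zT f j + 1 := by
  unfold cfac
  simp only [map_add, map_mul, map_pow, map_one]
  rfl

theorem xT_bPhi : xT f (bPhi A lam) =
    (cT f lam * xT f A.g) * ∏ j, ∏ i, xT f (A.fac j i) := by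
  unfold bPhi Tower.prod
  rw [map_mul, map_mul, xT_C, mul_assoc]
  simp only [map_prod]

theorem zT_eq : ∏ j, (zT f j ^ 2 + cT f (κ j) * zT f j + 1) =
    xT f (bPhi A lam) * ∏ j, zT f j := by
  have h := congrArg (fun b => f (toT A lam κ b)) (tpol_teqn A lam κ)
  unfold teqn cmon at h
  simp only [map_sub, map_mul, map_zero, map_prod, map_cfac, sub_eq_zero] at h
  exact h

theorem zT_ne_zero (j : Fin (s + 1)) : zT f j ≠ 0 := ((isUnit_tz A lam κ j).map f).ne_zero

theorem fac_ne_zero (j : Fin (n + 1)) (i : Fin (A.r j + 1)) : xT f (A.fac j i) ≠ 0 := by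
  rw [xT_apply]
  exact ((isUnit_tu A lam κ j i).map f).ne_zero

theorem bPhi_map_ne_zero : xT f (bPhi A lam) ≠ 0 := by
  have h := ((isUnit_tdel A lam κ).map f).ne_zero
  unfold tdel at h
  rw [map_mul, map_mul, map_mul] at h
  exact left_ne_zero_of_mul h

theorem map_tu (j : Fin (n + 1)) (i : Fin (A.r j + 1)) :
    f (tu A lam κ j i : TOpen A lam κ) = xT f (A.fac j i) := rfl

/-- The symbols are unramified at all discrete valuations. -/
theorem symb_mem_unitPart (hG : A.Graphs) {D : Fin (n + 1) → K} (hS : Scales A D)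
    (hSG : ScalesG A D lam) (hκ : ∀ j, IsIntegral ℤ (κ j)) {N : ℕ} (hN0 : N ≠ 0)
    (hN : ∀ j, (Polynomial.X ^ 2 + Polynomial.C (κ j) * Polynomial.X + 1 : Polynomial K) ∣
      Polynomial.X ^ N - 1)
    (v : Valuation L ℤᵐ⁰) (k : ∀ j, Fin (A.r j)) :
    symb (fun l => Units.map (f : TOpen A lam κ →* L) (tent A lam κ k l)) ∈
      unitPart v (s + (n + 1) + 1) := by
  classical
  obtain ⟨hD0, hDi⟩ := hS
  have hc : ∀ x : K, IsIntegral ℤ x → v (cT f x) ≤ 1 := fun x hx =>
    val_le_one_of_integral v (map_isIntegral_int _ hx)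
  set w : Fin (s + 1) → Lˣ := fun j => Units.map (f : TOpen A lam κ →* L) (tz A lam κ j)
    with hw
  set z : (j : Fin (n + 1)) → Fin (A.r j + 1) → Lˣ :=
    fun j i => Units.map (f : TOpen A lam κ →* L) (tu A lam κ j i) with hz
  have hwv : ∀ j, (w j : L) = zT f j := fun j => rfl
  have hzv : ∀ j i, (z j i : L) = xT f (A.fac j i) := fun j i => rfl
  have hent : (fun l => Units.map (f : TOpen A lam κ →* L) (tent A lam κ k l)) =
      (Fin.cons (w 0) (Fin.append (fun j : Fin s => w j.succ)
        fun j : Fin (n + 1) => z j (k j).succ / z j 0) : Fin (s + (n + 1) + 1) → Lˣ) := by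
    funext l
    refine Fin.cases ?_ (fun l => ?_) l
    · rfl
    · unfold tent
      rw [Fin.cons_succ, Fin.cons_succ]
      refine Fin.addCases (fun j => ?_) (fun j => ?_) l
      · rw [Fin.append_left, Fin.append_left]
      · rw [Fin.append_right, Fin.append_right]
        exact map_div (Units.map (f : TOpen A lam κ →* L)) _ _
  rw [hent]
  -- the entry `w j`
  have hwent : ∀ j, ∃ i : Fin (s + (n + 1) + 1), (Fin.cons (w 0) (Fin.append
      (fun j : Fin s => w j.succ) fun j : Fin (n + 1) => z j (k j).succ / z j 0) :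
      Fin (s + (n + 1) + 1) → Lˣ) i = w j := by
    intro j
    refine Fin.cases ?_ (fun j => ?_) j
    · exact ⟨0, rfl⟩
    · refine ⟨(Fin.castAdd (n + 1) j).succ, ?_⟩
      rw [Fin.cons_succ, Fin.append_left]
  -- the scaled coordinates
  set y : Fin (n + 1) → L := fun j => xT f (MvPolynomial.C (D j)) * xT f (MvPolynomial.X j)
    with hy
  have hDne : ∀ j, xT f (MvPolynomial.C (D j)) ≠ 0 := fun j => by
    rw [xT_C]
    exact (map_ne_zero (cT f)).2 (hD0 j)
  have hfac : ∀ j i, xT f (MvPolynomial.C (D j)) * xT f (A.fac j i) =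
      y j - xT f (MvPolynomial.C (D j)) * xT f (A.phi j i) := fun j i => by
    unfold Tower.fac
    rw [map_sub, mul_sub]
  by_cases hB : ∃ j, 1 < v (y j)
  · -- the last one
    have hne : (Finset.univ.filter fun j : Fin (n + 1) => 1 < v (y j)).Nonempty := by
      obtain ⟨j, hj⟩ := hB
      exact ⟨j, Finset.mem_filter.2 ⟨Finset.mem_univ _, hj⟩⟩
    set j := (Finset.univ.filter fun j : Fin (n + 1) => 1 < v (y j)).max' hne with hjdef
    have hj : 1 < v (y j) := (Finset.mem_filter.1 (Finset.max'_mem _ hne)).2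
    have hlt : ∀ l, j < l → v (y l) ≤ 1 := by
      intro l hl
      by_contra hcon
      refine absurd (Finset.le_max' _ l (Finset.mem_filter.2 ⟨Finset.mem_univ _, ?_⟩))
        (not_le.2 hl)
      exact not_le.1 hcon
    have hphi : ∀ i, v (xT f (MvPolynomial.C (D j)) * xT f (A.phi j i)) ≤ 1 := fun i =>
      val_le_one_scaled (xT f) v hD0 (hDi j i) fun l hl => hlt l (hG.1 j i l hl)
    refine mem_unitPart_of_oneUnit' v (Fin.natAdd s j).succ _ ?_
    rw [Fin.cons_succ, Fin.append_right, Units.val_div_eq_div_val, hzv, hzv,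
      div_sub_one (fac_ne_zero f j 0), ← mul_div_mul_left _ _ (hDne j), mul_sub, hfac, hfac,
      map_div₀]
    have h1 : v (y j - xT f (MvPolynomial.C (D j)) * xT f (A.phi j 0)) = v (y j) :=
      Valuation.map_sub_eq_of_lt_left v ((hphi 0).trans_lt hj)
    have h2 : v (y j - xT f (MvPolynomial.C (D j)) * xT f (A.phi j (k j).succ) -
        (y j - xT f (MvPolynomial.C (D j)) * xT f (A.phi j 0))) ≤ 1 := by
      have e : y j - xT f (MvPolynomial.C (D j)) * xT f (A.phi j (k j).succ) -
        (y j - xT f (MvPolynomial.C (D j)) * xT f (A.phi j 0)) =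
        xT f (MvPolynomial.C (D j)) * xT f (A.phi j 0) -
          xT f (MvPolynomial.C (D j)) * xT f (A.phi j (k j).succ) := by ring
      rw [e]
      exact (v.map_sub _ _).trans (max_le (hphi _) (hphi _))
    rw [h1]
    have h3 : 0 < v (y j) := zero_lt_one.trans hj
    rw [div_lt_one₀ h3]
    exact h2.trans_lt hj
  · push Not at hB
    have hphi : ∀ j i, v (xT f (MvPolynomial.C (D j)) * xT f (A.phi j i)) ≤ 1 := fun j i =>
      val_le_one_scaled (xT f) v hD0 (hDi j i) fun l _ => hB l
    have hsub : ∀ j i, v (xT f (MvPolynomial.C (D j)) * xT f (A.fac j i)) ≤ 1 := fun j i => by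
      rw [hfac]
      exact (v.map_sub _ _).trans (max_le (hB j) (hphi j i))
    set u : L := xT f (MvPolynomial.C (lam / ∏ j, D j ^ (A.r j + 1))) * xT f A.g with hu
    have hu1 : v u ≤ 1 := by
      refine val_le_one_scaled (xT f) v hD0 (fun m => ?_) fun l _ => hB l
      have h1 := hSG m
      have e : lam / (∏ j, D j ^ (A.r j + 1)) * A.g.coeff m / ∏ l, D l ^ m l =
          lam * A.g.coeff m / ((∏ l, D l ^ m l) * ∏ j, D j ^ (A.r j + 1)) := by
        rw [div_mul_eq_mul_div, div_div, mul_comm (∏ j, D j ^ (A.r j + 1))]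
      rw [e]
      exact h1
    have hPD : (∏ j, D j ^ (A.r j + 1)) ≠ 0 :=
      Finset.prod_ne_zero_iff.2 fun j _ => pow_ne_zero _ (hD0 j)
    have hPhieq : xT f (bPhi A lam) = u * ∏ e : (j : Fin (n + 1)) × Fin (A.r j + 1),
        (xT f (MvPolynomial.C (D e.1)) * xT f (A.fac e.1 e.2)) := by
      rw [xT_bPhi, Fintype.prod_sigma, hu]
      simp only [Finset.prod_mul_distrib, Finset.prod_const, Finset.card_univ, Fintype.card_fin]
      have e1 : ∏ j, xT f (MvPolynomial.C (D j)) ^ (A.r j + 1) =
          cT f (∏ j, D j ^ (A.r j + 1)) := by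
        simp only [xT_C, map_prod, map_pow]
      rw [e1, xT_C, map_div₀]
      have h2 : cT f (∏ j, D j ^ (A.r j + 1)) ≠ 0 := (map_ne_zero (cT f)).2 hPD
      field_simp
    have hPhi : v (xT f (bPhi A lam)) ≤ 1 := by
      rw [hPhieq, map_mul, map_prod]
      exact mul_le_one' hu1 (Finset.prod_le_one' fun e _ => hsub e.1 e.2)
    by_cases hB1 : ∃ j, v (zT f j) = 1 ∧ v (zT f j ^ 2 + cT f (κ j) * zT f j + 1) < 1
    · obtain ⟨j, hj1, hj2⟩ := hB1
      obtain ⟨i, hi⟩ := hwent j
      refine mem_unitPart_of_pow v i (m := N) _ hN0 ?_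
      rw [hi, hwv]
      exact val_pow_sub_one (cT f) v (hκ j) (hN j) hj1.le hj2
    · push Not at hB1
      -- the factors
      have hlow : ∀ j, v (zT f j) < 1 → v (zT f j ^ 2 + cT f (κ j) * zT f j + 1) = 1 := by
        intro j hj
        rw [add_comm]
        refine Valuation.map_one_add_of_lt v ?_
        refine (v.map_add _ _).trans_lt (max_lt ?_ ?_)
        · rw [map_pow]
          exact pow_lt_one₀ zero_le hj (by norm_num)
        · rw [map_mul]
          calc _ ≤ 1 * v (zT f j) := mul_le_mul' (hc _ (hκ j)) le_rfl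
            _ = v (zT f j) := one_mul _
            _ < 1 := hj
      have hhigh : ∀ j, 1 < v (zT f j) →
          v (zT f j ^ 2 + cT f (κ j) * zT f j + 1) = v (zT f j) ^ 2 := by
        intro j hj
        have hj2 : v (zT f j) < v (zT f j) ^ 2 := by
          rw [pow_two]
          exact lt_mul_of_one_lt_left (zero_lt_one.trans hj) hj
        rw [add_assoc, ← map_pow]
        refine Valuation.map_add_eq_of_lt_left v ?_
        rw [map_pow]
        refine (v.map_add _ _).trans_lt (max_lt ?_ ?_)
        · rw [map_mul]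
          calc _ ≤ 1 * v (zT f j) := mul_le_mul' (hc _ (hκ j)) le_rfl
            _ = v (zT f j) := one_mul _
            _ < _ := hj2
        · rw [map_one]
          exact hj.trans hj2
      have hg0 : ∀ j, v (zT f j ^ 2 + cT f (κ j) * zT f j + 1) ≠ 0 := by
        intro j h0
        have h1 := congrArg v (zT_eq f)
        rw [map_prod, Finset.prod_eq_zero (Finset.mem_univ j) h0] at h1
        have h2 : xT f (bPhi A lam) * ∏ j, zT f j ≠ 0 :=
          mul_ne_zero (bPhi_map_ne_zero f)
            (Finset.prod_ne_zero_iff.2 fun j _ => zT_ne_zero f j)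
        exact (Valuation.ne_zero_iff v).2 h2 h1.symm
      have ht : ∀ j, v (zT f j) / v (zT f j ^ 2 + cT f (κ j) * zT f j + 1) ≤ 1 := by
        intro j
        rw [div_le_one₀ (zero_lt_iff.2 (hg0 j))]
        rcases lt_trichotomy (v (zT f j)) 1 with h | h | h
        · rw [hlow j h]
          exact h.le
        · rw [h]
          exact hB1 j h
        · rw [hhigh j h, pow_two]
          exact (lt_mul_of_one_lt_left (zero_lt_one.trans h) h).le
      have hprod : v (xT f (bPhi A lam)) *
          ∏ j, (v (zT f j) / v (zT f j ^ 2 + cT f (κ j) * zT f j + 1)) = 1 := by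
        have h1 := congrArg v (zT_eq f)
        rw [map_mul, map_prod, map_prod] at h1
        rw [Finset.prod_div_distrib, ← mul_div_assoc, ← h1]
        exact div_self (Finset.prod_ne_zero_iff.2 fun j _ => hg0 j)
      obtain ⟨hP1, hz1⟩ := all_one ht hPhi hprod
      have hz2 : ∀ j, v (zT f j) = 1 := by
        intro j
        have h1 := hz1 j
        rw [div_eq_one_iff_eq (hg0 j)] at h1
        rcases lt_trichotomy (v (zT f j)) 1 with h | h | h
        · rw [hlow j h] at h1
          exact h1
        · exact h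
        · rw [hhigh j h, pow_two] at h1
          exact absurd h1 (lt_mul_of_one_lt_left (zero_lt_one.trans h) h).ne
      rw [hPhieq, map_mul, map_prod] at hP1
      obtain ⟨-, hl1⟩ := all_one (fun e : (j : Fin (n + 1)) × Fin (A.r j + 1) => hsub e.1 e.2)
        hu1 hP1
      refine Submodule.subset_span ⟨_, fun l => ?_, rfl⟩
      refine Fin.cases ?_ (fun l => ?_) l
      · exact hz2 0
      · rw [Fin.cons_succ]
        refine Fin.addCases (fun j => ?_) (fun j => ?_) l
        · rw [Fin.append_left]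
          exact hz2 j.succ
        · rw [Fin.append_right, Units.val_div_eq_div_val, hzv, hzv,
            ← mul_div_mul_left _ _ (hDne j), map_div₀, hl1 ⟨j, (k j).succ⟩, hl1 ⟨j, 0⟩, div_one]

theorem symb_mem_unramified (hG : A.Graphs) {D : Fin (n + 1) → K} (hS : Scales A D)
    (hSG : ScalesG A D lam) (hκ : ∀ j, IsIntegral ℤ (κ j)) {N : ℕ} (hN0 : N ≠ 0)
    (hN : ∀ j, (Polynomial.X ^ 2 + Polynomial.C (κ j) * Polynomial.X + 1 : Polynomial K) ∣
      Polynomial.X ^ N - 1) (k : ∀ j, Fin (A.r j)) :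
    KQ.map (s + (n + 1) + 1) f (symb (tent A lam κ k)) ∈
      Unramified L (s + (n + 1) + 1) := by
  rw [KQ.map_symb]
  unfold Unramified
  simp only [Submodule.mem_iInf]
  intro v _
  exact symb_mem_unitPart f hG hS hSG hκ hN0 hN v k

end Unram

end Pool.Agent.T6.H53.CT
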