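import Pool.Agent.Y797.TW.Tor
set_option autoImplicit false

/-!
The determinants of the orders.
-/

namespace Pool.Agent.T6.H53.CT

open Pool.Agent.Y797.TW (nex ex sum_nex det_ex)

section det

variable {n : ℕ} {r : Fin (n + 1) → ℕ}

/-- the orders of the quotients at the corner -/
def BM (m : Fin (n + 1) → ℕ)
    (al : Option ((j : Fin (n + 1)) × Fin (r j + 1)) → Fin (n + 1) →₀ ℕ)
    (k : ∀ j, Fin (r j)) : Matrix (Fin (n + 1)) (Fin (n + 1)) ℝ :=
  Matrix.of fun l j => ((nex m (fun i => al (some ⟨l, (k l).succ⟩) i) j : ℕ) : ℝ) -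
    ((nex m (fun i => al (some ⟨l, 0⟩) i) j : ℕ) : ℝ)

theorem det_BM (m : Fin (n + 1) → ℕ)
    (al : Option ((j : Fin (n + 1)) × Fin (r j + 1)) → Fin (n + 1) →₀ ℕ)
    (c : ∀ j, Fin (r j)) (h1 : ∀ j, al (some ⟨j, (c j).succ⟩) = Finsupp.single j 1)
    (h2 : ∀ j i, i ≠ (c j).succ → ∀ l, l ≤ j → al (some ⟨j, i⟩) l = 0) (k : ∀ j, Fin (r j)) :
    (BM m al k).det = if k = c then 1 else 0 := by
  have hz : ∀ j, (0 : Fin (r j + 1)) ≠ (c j).succ := fun j => (Fin.succ_ne_zero _).symm
  have h : BM m al k =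
      (Matrix.of fun l i => ((al (some ⟨l, (k l).succ⟩) i : ℕ) : ℝ) -
        ((al (some ⟨l, 0⟩) i : ℕ) : ℝ)) *
      (Matrix.of fun j l => ((ex m j l : ℕ) : ℝ)) := by
    ext l j
    unfold BM
    rw [Matrix.mul_apply]
    simp only [Matrix.of_apply]
    rw [sum_nex, sum_nex, ← Finset.sum_sub_distrib]
    exact Finset.sum_congr rfl fun p _ => by ring
  rw [h, Matrix.det_mul, det_ex, mul_one]
  rw [Matrix.det_of_isUpperTriangular]
  · by_cases hk : k = c
    · subst hk
      rw [if_pos rfl]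
      refine Finset.prod_eq_one fun l _ => ?_
      rw [Matrix.of_apply, h1, h2 l 0 (hz l) l le_rfl, Finsupp.single_eq_same]
      norm_num
    · rw [if_neg hk]
      obtain ⟨l, hl⟩ := Function.ne_iff.1 hk
      refine Finset.prod_eq_zero (Finset.mem_univ l) ?_
      rw [Matrix.of_apply, h2 l 0 (hz l) l le_rfl, h2 l (k l).succ ?_ l le_rfl, sub_self]
      exact fun e => hl (Fin.succ_injective _ e)
  · intro l j hlj
    have hlj' : j < l := hlj
    rw [Matrix.of_apply, h2 l 0 (hz l) j hlj'.le]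
    by_cases hk : k l = c l
    · rw [hk, h1, Finsupp.single_eq_of_ne hlj'.ne]
      simp
    · rw [h2 l (k l).succ (fun e => hk (Fin.succ_injective _ e)) j hlj'.le, sub_self]

/-- the orders of the entries -/
def RR (s : ℕ) (W0 : Fin (s + (n + 1)) → ℝ) (B : Matrix (Fin (n + 1)) (Fin (n + 1)) ℝ) :
    Matrix (Fin (s + (n + 1) + 1)) (Fin (s + (n + 1) + 1)) ℝ :=
  Matrix.of (Fin.cons (Fin.cons 1 W0) (Fin.append
    (fun j : Fin s => Fin.cons 0 fun i => if i = Fin.castAdd (n + 1) j then 1 else 0)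
    fun l : Fin (n + 1) => Fin.cons 0 (Fin.append (fun _ : Fin s => 0) (B l))))

variable {s : ℕ} (W0 : Fin (s + (n + 1)) → ℝ) (B : Matrix (Fin (n + 1)) (Fin (n + 1)) ℝ)

theorem RR_zero : RR s W0 B 0 = Fin.cons 1 W0 := rfl

theorem RR_left (j : Fin s) : RR s W0 B (Fin.castAdd (n + 1) j).succ =
    Fin.cons 0 fun i => if i = Fin.castAdd (n + 1) j then 1 else 0 := by
  exact Fin.append_left (α := Fin (s + (n + 1) + 1) → ℝ)
    (fun j : Fin s => Fin.cons 0 fun i => if i = Fin.castAdd (n + 1) j then 1 else 0)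
    (fun l : Fin (n + 1) => Fin.cons 0 (Fin.append (fun _ : Fin s => 0) (B l))) j

theorem RR_right (l : Fin (n + 1)) : RR s W0 B (Fin.natAdd s l).succ =
    Fin.cons 0 (Fin.append (fun _ : Fin s => 0) (B l)) := by
  exact Fin.append_right (α := Fin (s + (n + 1) + 1) → ℝ)
    (fun j : Fin s => Fin.cons 0 fun i => if i = Fin.castAdd (n + 1) j then 1 else 0)
    (fun l : Fin (n + 1) => Fin.cons 0 (Fin.append (fun _ : Fin s => 0) (B l))) l

theorem RR_col (l : Fin (s + (n + 1))) : RR s W0 B l.succ 0 = 0 := by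
  refine Fin.addCases (fun j => ?_) (fun j => ?_) l
  · rw [RR_left, Fin.cons_zero]
  · rw [RR_right, Fin.cons_zero]

theorem det_RR : (RR s W0 B).det = B.det := by
  rw [Matrix.det_succ_column_zero, Fin.sum_univ_succ]
  simp only [RR_col, RR_zero, Fin.cons_zero, mul_zero, zero_mul, Finset.sum_const_zero, add_zero,
    Fin.val_zero, pow_zero, mul_one, one_mul]
  rw [← Matrix.det_submatrix_equiv_self (finSumFinEquiv (m := s) (n := n + 1))]
  have h : (((RR s W0 B).submatrix (Fin.succAbove 0) Fin.succ).submatrix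
      (finSumFinEquiv (m := s) (n := n + 1)) (finSumFinEquiv (m := s) (n := n + 1))) =
      Matrix.fromBlocks 1 0 0 B := by
    ext i j
    rw [Matrix.submatrix_apply, Matrix.submatrix_apply, Fin.succAbove_zero]
    rcases i with i | i <;> rcases j with j | j
    · rw [finSumFinEquiv_apply_left, finSumFinEquiv_apply_left, RR_left, Fin.cons_succ,
        Matrix.fromBlocks_apply₁₁, Matrix.one_apply]
      by_cases hij : i = j
      · rw [if_pos hij, if_pos (by rw [hij])]
      · rw [if_neg hij, if_neg fun h => hij (Fin.castAdd_injective _ _ h).symm]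
    · rw [finSumFinEquiv_apply_left, finSumFinEquiv_apply_right, RR_left, Fin.cons_succ,
        Matrix.fromBlocks_apply₁₂, Matrix.zero_apply, if_neg]
      intro h
      have := congrArg Fin.val h
      simp only [Fin.val_castAdd, Fin.val_natAdd] at this
      have := i.isLt
      omega
    · rw [finSumFinEquiv_apply_right, finSumFinEquiv_apply_left, RR_right, Fin.cons_succ,
        Matrix.fromBlocks_apply₂₁, Matrix.zero_apply, Fin.append_left]
    · rw [finSumFinEquiv_apply_right, finSumFinEquiv_apply_right, RR_right, Fin.cons_succ,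
        Matrix.fromBlocks_apply₂₂, Fin.append_right]
  rw [h, Matrix.det_fromBlocks_zero₂₁, Matrix.det_one, one_mul]

end det

end Pool.Agent.T6.H53.CT
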