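import Pool.Agent.T6.H53.CT.Ring
import Pool.Agent.TH333.CY.Tori
import Pool.Agent.Y797.TW.Gen
set_option autoImplicit false

/-!
Smoothness of the fibrations for large `λ`; evaluation of the functions at complex points, and tori
in the fibrations.
-/

namespace Pool.Agent.T6.H53.CT

open Pool.Agent.TH826.MK

open Pool.Agent.TH333.CY (cfac cmon eval_cfac eval_cmon pderiv_prod_eq_zero pderiv_inl_rename
  pderiv_cfac_of_ne pderiv_cfac_self)

open Pool.Agent.Y797.TW (Tower)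

section deriv

variable {K : Type*} [Field K] {s n : ℕ} {A : Tower K n} {lam : K} {κ : Fin (s + 1) → K}

theorem pderiv_inl_teqn (i : Fin (s + 1)) :
    MvPolynomial.pderiv (Sum.inl i : Fin (s + 1) ⊕ Fin (n + 1)) (teqn A lam κ) =
      (2 * MvPolynomial.X (Sum.inl i) + MvPolynomial.C (κ i)) *
        ∏ j ∈ Finset.univ.erase i, cfac κ n j -
      tPhi A lam s * ∏ j ∈ Finset.univ.erase i, MvPolynomial.X (Sum.inl j) := by
  unfold teqn cmon tPhi
  rw [← Finset.mul_prod_erase Finset.univ (fun j => cfac κ n j) (Finset.mem_univ i),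
    ← Finset.mul_prod_erase Finset.univ (fun j => (MvPolynomial.X (Sum.inl j) :
      MvPolynomial (Fin (s + 1) ⊕ Fin (n + 1)) K)) (Finset.mem_univ i),
    map_sub, Derivation.leibniz, Derivation.leibniz, Derivation.leibniz, pderiv_cfac_self,
    pderiv_inl_rename,
    pderiv_prod_eq_zero _ _ _ fun j hj => pderiv_cfac_of_ne (Finset.ne_of_mem_erase hj),
    pderiv_prod_eq_zero _ _ _ fun j hj => MvPolynomial.pderiv_X_of_ne
      (by simpa using Finset.ne_of_mem_erase hj), MvPolynomial.pderiv_X_self]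
  simp only [smul_eq_mul]
  ring

theorem pderiv_inr_teqn (k : Fin (n + 1)) :
    MvPolynomial.pderiv (Sum.inr k : Fin (s + 1) ⊕ Fin (n + 1)) (teqn A lam κ) =
      - (MvPolynomial.rename Sum.inr (MvPolynomial.pderiv k (bPhi A lam)) * cmon K s n) := by
  unfold teqn cmon tPhi
  have h1 : ∀ j, MvPolynomial.pderiv (Sum.inr k : Fin (s + 1) ⊕ Fin (n + 1))
      (MvPolynomial.X (Sum.inl j) : MvPolynomial (Fin (s + 1) ⊕ Fin (n + 1)) K) = 0 :=
    fun j => MvPolynomial.pderiv_X_of_ne (by simp)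
  have h2 : ∀ j, MvPolynomial.pderiv (Sum.inr k : Fin (s + 1) ⊕ Fin (n + 1))
      (cfac κ n j) = 0 := by
    intro j
    unfold cfac
    rw [map_add, map_add, MvPolynomial.pderiv_C_mul, h1, MvPolynomial.pderiv_one, pow_two,
      Derivation.leibniz, h1]
    simp
  rw [map_sub, pderiv_prod_eq_zero _ _ _ fun j _ => h2 j, Derivation.leibniz,
    pderiv_prod_eq_zero _ _ _ fun j _ => h1 j,
    MvPolynomial.pderiv_rename Sum.inr_injective]
  simp only [smul_eq_mul]
  ring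

end deriv

section eval

variable {K : Type*} [Field K] {s n : ℕ} {A : Tower K n} {lam : K} {κ : Fin (s + 1) → K}

theorem eval_tPhi (σ : K →+* ℂ) (p : Fin (s + 1) ⊕ Fin (n + 1) → ℂ) :
    MvPolynomial.eval₂ σ p (tPhi A lam s) =
      σ lam * MvPolynomial.eval₂ σ (fun j => p (Sum.inr j)) A.prod := by
  unfold tPhi bPhi
  rw [MvPolynomial.eval₂_rename, MvPolynomial.eval₂_mul, MvPolynomial.eval₂_C]
  rfl

theorem eval_teqn (σ : K →+* ℂ) (p : Fin (s + 1) ⊕ Fin (n + 1) → ℂ) :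
    MvPolynomial.eval₂ σ p (teqn A lam κ) =
      ∏ j, (p (Sum.inl j) ^ 2 + σ (κ j) * p (Sum.inl j) + 1) -
      (σ lam * MvPolynomial.eval₂ σ (fun j => p (Sum.inr j)) A.prod) * ∏ j, p (Sum.inl j) := by
  unfold teqn
  rw [MvPolynomial.eval₂_sub, MvPolynomial.eval₂_mul, eval_tPhi, eval_cmon,
    MvPolynomial.eval₂_prod]
  simp only [eval_cfac]

theorem exists_smooth (σ : K →+* ℂ) (A : Tower K n) (κ : Fin (s + 1) → K) :
    ∃ C : ℝ, 1 ≤ C ∧ ∀ lam : K, C ≤ ‖σ lam‖ → ∀ p : Fin (s + 1) ⊕ Fin (n + 1) → ℂ,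
      (∀ j, p (Sum.inl j) ≠ 0) →
      (MvPolynomial.eval₂ σ (fun j => p (Sum.inr j)) A.prod = 0 →
        ∃ i, MvPolynomial.eval₂ σ (fun j => p (Sum.inr j)) (MvPolynomial.pderiv i A.prod) ≠ 0) →
      MvPolynomial.eval₂ σ p (teqn A lam κ) = 0 →
      ∃ i, MvPolynomial.eval₂ σ p (MvPolynomial.pderiv i (teqn A lam κ)) ≠ 0 := by
  obtain ⟨ε, hε, h⟩ := Pool.Agent.Y797.GC.exists_level (MvPolynomial.map σ A.prod)
  set B : ℝ := ∏ j, (2 + ‖σ (κ j)‖) with hB
  have hB0 : 0 ≤ B := Finset.prod_nonneg fun j _ => by positivity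
  refine ⟨B / ε + 1, by have : 0 ≤ B / ε := by positivity
                        linarith, fun lam hlam p hz hP he => ?_⟩
  have hln : 0 < ‖σ lam‖ := by
    have : 0 ≤ B / ε := by positivity
    linarith
  have hl0 : σ lam ≠ 0 := norm_pos_iff.1 hln
  by_contra hcon
  push Not at hcon
  set x : Fin (n + 1) → ℂ := fun j => p (Sum.inr j) with hx
  have hprodz : ∏ j, p (Sum.inl j) ≠ 0 := Finset.prod_ne_zero_iff.2 fun j _ => hz j
  have hd : ∀ i, MvPolynomial.eval₂ σ x (MvPolynomial.pderiv i A.prod) = 0 := by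
    intro i
    have h1 := hcon (Sum.inr i)
    rw [pderiv_inr_teqn, MvPolynomial.eval₂_neg, neg_eq_zero, MvPolynomial.eval₂_mul, eval_cmon,
      mul_eq_zero, or_iff_left hprodz, MvPolynomial.eval₂_rename] at h1
    unfold bPhi at h1
    rw [MvPolynomial.pderiv_C_mul, MvPolynomial.eval₂_mul,
      MvPolynomial.eval₂_C, mul_eq_zero, or_iff_right hl0] at h1
    exact h1
  have hP0 : MvPolynomial.eval₂ σ x A.prod ≠ 0 := by
    intro h0
    obtain ⟨i, hi⟩ := hP h0
    exact hi (hd i)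
  rw [eval_teqn, sub_eq_zero] at he
  change _ = (σ lam * MvPolynomial.eval₂ σ x A.prod) * _ at he
  have hne : ∏ j, (p (Sum.inl j) ^ 2 + σ (κ j) * p (Sum.inl j) + 1) ≠ 0 := by
    rw [he]
    exact mul_ne_zero (mul_ne_zero hl0 hP0) hprodz
  have hz2 : ∀ j, p (Sum.inl j) ^ 2 = 1 := by
    intro j
    have h1 := hcon (Sum.inl j)
    rw [pderiv_inl_teqn, MvPolynomial.eval₂_sub, MvPolynomial.eval₂_mul, MvPolynomial.eval₂_mul,
      eval_tPhi, MvPolynomial.eval₂_prod, MvPolynomial.eval₂_prod, MvPolynomial.eval₂_add,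
      MvPolynomial.eval₂_mul, MvPolynomial.eval₂_C, MvPolynomial.eval₂_X] at h1
    have h22 : MvPolynomial.eval₂ σ p (2 : MvPolynomial (Fin (s + 1) ⊕ Fin (n + 1)) K) = 2 := by
      have : (2 : MvPolynomial (Fin (s + 1) ⊕ Fin (n + 1)) K) = MvPolynomial.C 2 :=
        (map_ofNat MvPolynomial.C 2).symm
      rw [this, MvPolynomial.eval₂_C, map_ofNat]
    simp only [eval_cfac, MvPolynomial.eval₂_X] at h1
    rw [h22] at h1
    have h2 := Finset.mul_prod_erase Finset.univ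
      (fun j => p (Sum.inl j) ^ 2 + σ (κ j) * p (Sum.inl j) + 1) (Finset.mem_univ j)
    have h3 := Finset.mul_prod_erase Finset.univ (fun j => p (Sum.inl j)) (Finset.mem_univ j)
    set P1 := ∏ j ∈ Finset.univ.erase j, (p (Sum.inl j) ^ 2 + σ (κ j) * p (Sum.inl j) + 1)
    set P2 := ∏ j ∈ Finset.univ.erase j, p (Sum.inl j)
    have h4 : P1 ≠ 0 := by
      intro h0
      rw [h0, mul_zero] at h2
      exact hne h2.symm
    change _ * P1 = _ at h2
    change _ * P2 = _ at h3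
    have h5 : (p (Sum.inl j) ^ 2 - 1) * P1 = 0 := by
      rw [← h2, ← h3] at he
      linear_combination p (Sum.inl j) * h1 - he
    rcases mul_eq_zero.1 h5 with h6 | h6
    · linear_combination h6
    · exact absurd h6 h4
  have hnorm : ∀ j, ‖p (Sum.inl j)‖ = 1 := by
    intro j
    have h1 := congrArg norm (hz2 j)
    rw [norm_pow, norm_one] at h1
    exact (pow_eq_one_iff_of_nonneg (norm_nonneg _) two_ne_zero).1 h1
  have hle : ‖σ lam * MvPolynomial.eval₂ σ x A.prod‖ ≤ B := by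
    have h1 : ‖σ lam * MvPolynomial.eval₂ σ x A.prod‖ =
        ‖∏ j, (p (Sum.inl j) ^ 2 + σ (κ j) * p (Sum.inl j) + 1)‖ := by
      rw [he, norm_mul _ (∏ j, p (Sum.inl j)), norm_prod]
      simp only [hnorm, Finset.prod_const_one, mul_one]
    rw [h1, norm_prod, hB]
    refine Finset.prod_le_prod (fun j _ => norm_nonneg _) fun j _ => ?_
    rw [hz2 j]
    refine (norm_add_le _ _).trans ?_
    have h2 := norm_add_le (1 : ℂ) (σ (κ j) * p (Sum.inl j))
    rw [norm_mul, hnorm j, mul_one, norm_one] at h2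
    rw [norm_one]
    linarith
  have hsmall : ‖MvPolynomial.eval₂ σ x A.prod‖ < ε := by
    rw [norm_mul] at hle
    by_contra hcon2
    push Not at hcon2
    have h1 : (B / ε + 1) * ε ≤ ‖σ lam‖ * ‖MvPolynomial.eval₂ σ x A.prod‖ :=
      mul_le_mul hlam hcon2 hε.le (norm_nonneg _)
    have h2 : (B / ε + 1) * ε = B + ε := by
      field_simp
    linarith
  obtain ⟨i, hi⟩ := h _ hP0 hsmall x (Pool.Agent.Y797.TW.eval_map σ x A.prod)
  rw [MvPolynomial.pderiv_map, Pool.Agent.Y797.TW.eval_map] at hi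
  exact hi (hd i)

end eval

section Ev

variable {K : Type*} [Field K] {s n N : ℕ} {σ : K →+* ℂ} {A : Tower K n} {lam : K}
  {κ : Fin (s + 1) → K}

/-- The complex points of the open part. -/
def TPt (σ : K →+* ℂ) (A : Tower K n) (lam : K) (κ : Fin (s + 1) → K)
    (p : Fin (s + 1) ⊕ Fin (n + 1) → ℂ) : Prop :=
  MvPolynomial.eval₂ σ p (teqn A lam κ) = 0 ∧
    MvPolynomial.eval₂ σ p (tPhi A lam s * cmon K s n) ≠ 0

/-- evaluation of the regular functions on the hypersurface -/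
noncomputable def TPt.evB {p : Fin (s + 1) ⊕ Fin (n + 1) → ℂ} (hx : TPt σ A lam κ p) :
    TRing A lam κ →+* ℂ :=
  Ideal.Quotient.lift (Ideal.span {teqn A lam κ}) (MvPolynomial.eval₂Hom σ p) (by
    intro q hq
    have hle : Ideal.span {teqn A lam κ} ≤ RingHom.ker (MvPolynomial.eval₂Hom σ p) := by
      rw [Ideal.span_le]
      rintro q rfl
      exact hx.1
    exact hle hq)

theorem TPt.evB_tpol {p : Fin (s + 1) ⊕ Fin (n + 1) → ℂ} (hx : TPt σ A lam κ p)
    (q : MvPolynomial (Fin (s + 1) ⊕ Fin (n + 1)) K) :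
    hx.evB (tpol A lam κ q) = MvPolynomial.eval₂Hom σ p q :=
  Ideal.Quotient.lift_mk _ _ _

theorem TPt.evB_ne {p : Fin (s + 1) ⊕ Fin (n + 1) → ℂ} (hx : TPt σ A lam κ p) :
    hx.evB (tdel A lam κ) ≠ 0 := by
  unfold tdel
  rw [hx.evB_tpol]
  exact hx.2

/-- evaluation of the regular functions on the open part -/
noncomputable def TPt.evA {p : Fin (s + 1) ⊕ Fin (n + 1) → ℂ} (hx : TPt σ A lam κ p) :
    TOpen A lam κ →+* ℂ :=
  liftT hx.evB hx.evB_ne

theorem TPt.evA_toT {p : Fin (s + 1) ⊕ Fin (n + 1) → ℂ} (hx : TPt σ A lam κ p)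
    (b : TRing A lam κ) : hx.evA (toT A lam κ b) = hx.evB b :=
  liftT_toT _ _ _

theorem TPt.evA_congr {p q : Fin (s + 1) ⊕ Fin (n + 1) → ℂ} (hx : TPt σ A lam κ p)
    (hy : TPt σ A lam κ q) (h : p = q) : hx.evA = hy.evA := by
  subst h
  rfl

theorem TPt.evA_tcst {p : Fin (s + 1) ⊕ Fin (n + 1) → ℂ} (hx : TPt σ A lam κ p) (y : K) :
    hx.evA (tcst A lam κ y) = σ y := by
  show hx.evA (toT A lam κ (tpol A lam κ (MvPolynomial.C y))) = _
  rw [hx.evA_toT, hx.evB_tpol]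
  simp

theorem TPt.evA_tz {p : Fin (s + 1) ⊕ Fin (n + 1) → ℂ} (hx : TPt σ A lam κ p)
    (j : Fin (s + 1)) : hx.evA (tz A lam κ j : TOpen A lam κ) = p (Sum.inl j) := by
  rw [coe_tz, hx.evA_toT, hx.evB_tpol]
  simp

theorem TPt.evA_tu {p : Fin (s + 1) ⊕ Fin (n + 1) → ℂ} (hx : TPt σ A lam κ p)
    (j : Fin (n + 1)) (i : Fin (A.r j + 1)) : hx.evA (tu A lam κ j i : TOpen A lam κ) =
      MvPolynomial.eval₂ σ (fun j => p (Sum.inr j)) (A.fac j i) := by
  rw [coe_tu, hx.evA_toT, hx.evB_tpol]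
  show MvPolynomial.eval₂ σ p (MvPolynomial.rename Sum.inr (A.fac j i)) = _
  rw [MvPolynomial.eval₂_rename]
  rfl

theorem contDiff_evA {p : (Fin N → ℝ) → (Fin (s + 1) ⊕ Fin (n + 1) → ℂ)} (hc : ContDiff ℝ 2 p)
    (hx : ∀ θ, TPt σ A lam κ (p θ)) (h : TOpen A lam κ) :
    ContDiff ℝ 2 fun θ => (hx θ).evA h := by
  have hxk : ∀ k, ContDiff ℝ 2 fun θ => p θ k := fun k => contDiff_pi.1 hc k
  have hmv : ∀ q : MvPolynomial (Fin (s + 1) ⊕ Fin (n + 1)) K,
      ContDiff ℝ 2 fun θ => MvPolynomial.eval₂Hom σ (p θ) q := by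
    intro q
    induction q using MvPolynomial.induction_on with
    | C c => simpa using contDiff_const
    | add p q hp hq => simpa using hp.add hq
    | mul_X p k hp => simpa using hp.mul (hxk k)
  have hB : ∀ b : TRing A lam κ, ContDiff ℝ 2 fun θ => (hx θ).evB b := by
    intro b
    obtain ⟨q, hq⟩ := Ideal.Quotient.mk_surjective b
    have e : (fun θ => (hx θ).evB b) = fun θ => MvPolynomial.eval₂Hom σ (p θ) q := by
      funext θ
      rw [← hq]
      exact (hx θ).evB_tpol q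
    rw [e]
    exact hmv q
  obtain ⟨q, hq⟩ := AdjoinRoot.mk_surjective (g := teqnO A lam κ) h
  have e : (fun θ => (hx θ).evA h) = fun θ =>
      ∑ i ∈ Finset.range (q.natDegree + 1), (hx θ).evB (q.coeff i) *
        ((hx θ).evB (tdel A lam κ))⁻¹ ^ i := by
    funext θ
    rw [← hq]
    unfold TPt.evA
    rw [liftT_mk, Polynomial.eval₂_eq_sum_range]
  rw [e]
  exact ContDiff.sum fun i _ => (hB _).mul
    (((hB _).inv fun θ => (hx θ).evB_ne).pow i)

/-- a torus in the hypersurface -/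
noncomputable def mkT (p : (Fin N → ℝ) → (Fin (s + 1) ⊕ Fin (n + 1) → ℂ)) (hc : ContDiff ℝ 2 p)
    (hp : ∀ θ i, p (θ + Pi.single i 1) = p θ)
    (hx : ∀ θ, TPt σ A lam κ (p θ)) : Torus (TOpen A lam κ) N where
  e θ := (hx θ).evA
  smooth h := contDiff_evA hc hx h
  periodic θ i := TPt.evA_congr _ _ (hp θ i)

variable (p : (Fin N → ℝ) → (Fin (s + 1) ⊕ Fin (n + 1) → ℂ)) (hc : ContDiff ℝ 2 p)
    (hp : ∀ θ i, p (θ + Pi.single i 1) = p θ)
    (hx : ∀ θ, TPt σ A lam κ (p θ))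

theorem mkT_tu (j : Fin (n + 1)) (i : Fin (A.r j + 1)) :
    (mkT p hc hp hx).fn (tu A lam κ j i : TOpen A lam κ) =
      fun θ => MvPolynomial.eval₂ σ (fun j => p θ (Sum.inr j)) (A.fac j i) := by
  funext θ
  exact (hx θ).evA_tu j i

theorem mkT_tz (j : Fin (s + 1)) :
    (mkT p hc hp hx).fn (tz A lam κ j : TOpen A lam κ) = fun θ => p θ (Sum.inl j) := by
  funext θ
  exact (hx θ).evA_tz j

end Ev

end Pool.Agent.T6.H53.CT
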