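import Pool.Agent.TH333.CY.Final
set_option autoImplicit false

/-!
Tori on which the large root of `z + k + 1/z = ℓ F` is defined, and tori on which functions behave
like monomials.
-/

namespace Pool.Agent.T6.H53.CT

open Pool.Agent.TH826.MK

open Pool.Agent.TH826.DC (wT exists_circles good_hs_comp norm_lw_hs_comp)

open Pool.Agent.TH333.CY (good_one_sub abs_log_one_sub norm_one_sub_ge norm_lw_one_sub good_inv
  lw_inv)

section root

variable {N : ℕ}

/-- The large root of `z + k + 1/z = ℓ F`. -/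
theorem exists_root {F0 : (Fin N → ℝ) → ℂ} (hF0 : Good F0) {C1 E0 : ℝ} (hC1 : 0 ≤ C1)
    (hE0 : 0 ≤ E0) (hlog : ∀ θ, |Real.log ‖F0 θ‖| ≤ C1) (hlw : ∀ j θ, ‖lw F0 j θ‖ ≤ E0) (k : ℂ)
    {δ : ℝ} (hδ : 0 < δ) : ∃ Λ : ℝ, 1 < Λ ∧ ∀ ℓ : ℂ, Λ ≤ ‖ℓ‖ →
      (∀ θ, 4 ≤ ‖ℓ * F0 θ - k‖) ∧ (Good fun θ => zeta (ℓ * F0 θ - k)) ∧
      (∀ θ, |Real.log ‖zeta (ℓ * F0 θ - k)‖ / Real.log ‖ℓ‖ - 1| ≤ δ) ∧
      ∀ j θ, ‖lw (fun θ => zeta (ℓ * F0 θ - k)) j θ - lw F0 j θ‖ ≤ δ := by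
  set k0 : ℝ := ‖k‖ with hk0
  have hk00 : 0 ≤ k0 := norm_nonneg _
  set E : ℝ := E0 + δ with hE
  have hEpos : 0 < E := by positivity
  set B : ℝ := 4 + 8 * E / δ with hB
  have hB4 : 4 ≤ B := by
    have : 0 ≤ 8 * E / δ := by positivity
    rw [hB]
    linarith
  have hBE : 4 / B ^ 2 * E ≤ δ / 2 := by
    have h1 : 8 * E / δ ≤ B := by
      rw [hB]
      linarith
    rw [div_le_iff₀ hδ] at h1
    rw [div_mul_eq_mul_div, div_le_iff₀ (by positivity)]
    have h2 : B * δ * 1 ≤ B * δ * B := mul_le_mul_of_nonneg_left (by linarith) (by positivity)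
    nlinarith
  set B2 : ℝ := 2 * B + 2 * k0 + 4 * k0 * E0 / δ with hB2
  have hB2a : 0 ≤ 4 * k0 * E0 / δ := by positivity
  have hB2pos : 0 < B2 := by linarith
  have hkB : k0 / B2 ≤ 1 / 2 := by
    rw [div_le_iff₀ hB2pos]
    linarith
  have hkE : 2 * (k0 / B2) * E0 ≤ δ / 2 := by
    have h1 : 4 * k0 * E0 / δ ≤ B2 := by linarith
    rw [div_le_iff₀ hδ] at h1
    have h2 : 2 * (k0 / B2) * E0 = 2 * k0 * E0 / B2 := by ring
    rw [h2, div_le_iff₀ hB2pos]
    linarith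
  have hlogB : 0 ≤ Real.log B2 := Real.log_nonneg (by linarith)
  set M : ℝ := C1 + Real.log B2 + (C1 + 2) / δ + 1 with hM
  have hM1 : 0 ≤ (C1 + 2) / δ := by positivity
  refine ⟨Real.exp M + 1, by linarith [Real.exp_pos M], fun ℓ hℓ => ?_⟩
  have hln : 0 < ‖ℓ‖ := by linarith [Real.exp_pos M]
  have hl0 : ℓ ≠ 0 := norm_pos_iff.1 hln
  set q : ℝ := Real.log ‖ℓ‖ with hqdef
  have hqM : M ≤ q := by
    rw [hqdef, Real.le_log_iff_exp_le hln]
    linarith
  have hqpos : 0 < q := by linarith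
  set F : (Fin N → ℝ) → ℂ := fun θ => ℓ * F0 θ with hF
  have hFg : Good F := (good_const hl0).mul hF0
  have hlogF : ∀ θ, |Real.log ‖F θ‖ - q| ≤ C1 := by
    intro θ
    have h1 : Real.log ‖F θ‖ = q + Real.log ‖F0 θ‖ := by
      simp only [hF]
      rw [norm_mul, Real.log_mul hln.ne' (norm_ne_zero_iff.2 (hF0.ne_zero θ))]
    rw [h1, add_sub_cancel_left]
    exact hlog θ
  have hFB : ∀ θ, B2 ≤ ‖F θ‖ := by
    intro θ
    have h1 := abs_le.1 (hlogF θ)
    have h2 : Real.log B2 ≤ Real.log ‖F θ‖ := by linarith [h1.1]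
    exact (Real.log_le_log_iff hB2pos (norm_pos_iff.2 (hFg.ne_zero θ))).1 h2
  have hlwF : ∀ j θ, lw F j θ = lw F0 j θ := by
    intro j θ
    have h2 := lw_mul (good_const (d := N) hl0) hF0 j θ
    rw [lw_const, zero_add] at h2
    exact h2
  have hFi : Good fun θ => (F θ)⁻¹ := good_inv hFg
  have hsmall' : ∀ θ, ‖k * (F θ)⁻¹‖ ≤ k0 / B2 := by
    intro θ
    rw [norm_mul, norm_inv, ← div_eq_mul_inv]
    exact div_le_div_of_nonneg_left hk00 hB2pos (hFB θ)
  have hsmall : ∀ θ, ‖k * (F θ)⁻¹‖ ≤ 1 / 2 := fun θ => (hsmall' θ).trans hkB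
  have hOg : Good fun θ => 1 - k * (F θ)⁻¹ := good_one_sub k hFi hsmall
  set F1 : (Fin N → ℝ) → ℂ := fun θ => F θ * (1 - k * (F θ)⁻¹) with hF1
  have hF1g : Good F1 := hFg.mul hOg
  have hF1eq : ∀ θ, F1 θ = ℓ * F0 θ - k := by
    intro θ
    have h0 := hFg.ne_zero θ
    have h1 : F1 θ = F θ - k := by
      simp only [hF1]
      field_simp
    exact h1
  have hlogF1 : ∀ θ, |Real.log ‖F1 θ‖ - q| ≤ C1 + 1 := by
    intro θ
    have h1 : Real.log ‖F1 θ‖ = Real.log ‖F θ‖ + Real.log ‖1 - k * (F θ)⁻¹‖ := by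
      simp only [hF1]
      rw [norm_mul, Real.log_mul (norm_ne_zero_iff.2 (hFg.ne_zero θ))
        (norm_ne_zero_iff.2 (hOg.ne_zero θ))]
    have h2 := abs_log_one_sub (hsmall θ)
    have h3 := hlogF θ
    have h4 : Real.log ‖F1 θ‖ - q =
        (Real.log ‖F θ‖ - q) + Real.log ‖1 - k * (F θ)⁻¹‖ := by rw [h1]; ring
    rw [h4]
    exact (abs_add_le _ _).trans (add_le_add h3 h2)
  have hF1B : ∀ θ, B ≤ ‖F1 θ‖ := by
    intro θ
    simp only [hF1]
    rw [norm_mul]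
    have h1 := norm_one_sub_ge (hsmall θ)
    have h2 := hFB θ
    have h3 : B2 * (1 / 2) ≤ ‖F θ‖ * ‖1 - k * (F θ)⁻¹‖ :=
      mul_le_mul h2 h1 (by norm_num) (norm_nonneg _)
    linarith
  have hF14 : ∀ θ, 4 ≤ ‖F1 θ‖ := fun θ => hB4.trans (hF1B θ)
  have hlwF1 : ∀ j θ, ‖lw F1 j θ - lw F0 j θ‖ ≤ δ / 2 := by
    intro j θ
    have h1 := lw_mul hFg hOg j θ
    have h2 : ‖lw (fun θ => 1 - k * (F θ)⁻¹) j θ‖ ≤ δ / 2 := by
      refine (norm_lw_one_sub k hFi hsmall j θ).trans (le_trans ?_ hkE)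
      rw [lw_inv hFg, norm_neg, hlwF]
      exact mul_le_mul (mul_le_mul_of_nonneg_left (hsmall' θ) (by norm_num)) (hlw j θ)
        (norm_nonneg _) (by positivity)
    have h3 : lw F1 j θ - lw F0 j θ = lw (fun θ => 1 - k * (F θ)⁻¹) j θ := by
      have h4 : lw F1 j θ = lw F j θ + lw (fun θ => 1 - k * (F θ)⁻¹) j θ := h1
      rw [h4, hlwF]
      ring
    rw [h3]
    exact h2
  have hnlwF1 : ∀ j θ, ‖lw F1 j θ‖ ≤ E := by
    intro j θ
    have h1 := norm_sub_norm_le (lw F1 j θ) (lw F0 j θ)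
    have h3 := hlwF1 j θ
    have h4 := hlw j θ
    rw [hE]
    linarith
  have hgh := good_hs_comp hF1g hF14
  have hzeq : (fun θ => zeta (ℓ * F0 θ - k)) = fun θ => F1 θ * hs (F1 θ) := by
    funext θ
    rw [← hF1eq]
    rfl
  refine ⟨fun θ => by rw [← hF1eq]; exact hF14 θ, by rw [hzeq]; exact hF1g.mul hgh,
    fun θ => ?_, fun j θ => ?_⟩
  · have h0 : Real.log ‖zeta (ℓ * F0 θ - k)‖ = Real.log ‖F1 θ‖ + Real.log ‖hs (F1 θ)‖ := by
      rw [congrFun hzeq θ, norm_mul, Real.log_mul (norm_ne_zero_iff.2 (hF1g.ne_zero θ))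
        (norm_ne_zero_iff.2 (hgh.ne_zero θ))]
    have h1 := hlogF1 θ
    have h2 : |Real.log ‖hs (F1 θ)‖| ≤ 1 := by
      refine (abs_log_norm_hs (hF14 θ)).trans ?_
      rw [div_le_one (by have := hF14 θ; positivity)]
      nlinarith [hF14 θ]
    have h3 : (C1 + 2) / δ ≤ q := by linarith
    rw [div_le_iff₀ hδ] at h3
    have h4 : Real.log ‖zeta (ℓ * F0 θ - k)‖ / q - 1 =
        ((Real.log ‖F1 θ‖ - q) + Real.log ‖hs (F1 θ)‖) / q := by
      rw [h0]
      field_simp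
      ring
    rw [h4, abs_div, abs_of_pos hqpos, div_le_iff₀ hqpos]
    refine (abs_add_le _ _).trans ?_
    linarith
  · rw [hzeq, lw_mul hF1g hgh]
    have h1 := hlwF1 j θ
    have h2 : ‖lw (fun θ => hs (F1 θ)) j θ‖ ≤ δ / 2 := by
      refine (norm_lw_hs_comp hF1g hF14 j θ).trans (le_trans ?_ hBE)
      refine mul_le_mul ?_ (hnlwF1 j θ) (norm_nonneg _) (by positivity)
      refine div_le_div_of_nonneg_left (by norm_num) (by positivity) ?_
      exact pow_le_pow_left₀ (by linarith) (hF1B θ) 2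
    have h3 : lw F1 j θ + lw (fun θ => hs (F1 θ)) j θ - lw F0 j θ =
        (lw F1 j θ - lw F0 j θ) + lw (fun θ => hs (F1 θ)) j θ := by ring
    rw [h3]
    exact (norm_add_le _ _).trans (by linarith)

end root

section mono

variable {N : ℕ}

theorem good_pow {g : (Fin N → ℝ) → ℂ} (hg : Good g) (m : ℕ) : Good fun θ => g θ ^ m :=
  ⟨hg.smooth.pow m, fun θ => pow_ne_zero _ (hg.ne_zero θ)⟩

theorem lw_pow {g : (Fin N → ℝ) → ℂ} (hg : Good g) (m : ℕ) (j : Fin N) (θ : Fin N → ℝ) :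
    lw (fun θ => g θ ^ m) j θ = m * lw g j θ := by
  induction m with
  | zero =>
    simp only [pow_zero]
    rw [lw_const]
    simp
  | succ m ih =>
    have h := lw_mul (good_pow hg m) hg j θ
    simp only [pow_succ]
    rw [h, ih]
    push_cast
    ring

/-- Tori on which given functions behave like monomials. -/
theorem exists_mono {ι : Type*} [Fintype ι] [DecidableEq ι] (μ : ι → Fin N → ℕ)
    {h : ι → (Fin N → ℂ) → ℂ} (hh : ∀ e, ContDiff ℂ 2 (h e)) (h0 : ∀ e, h e 0 ≠ 0) {ε : ℝ}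
    (hε : 0 < ε) :
    ∃ (C : ℝ) (W : (Fin N → ℝ) → (Fin N → ℂ)), 0 ≤ C ∧ ContDiff ℝ 2 W ∧
      (∀ θ i, W (θ + Pi.single i 1) = W θ) ∧
      (∀ e, Good fun θ => (∏ l, W θ l ^ μ e l) * h e (W θ)) ∧
      ∀ e θ, |Real.log ‖(∏ l, W θ l ^ μ e l) * h e (W θ)‖| ≤ C ∧
        ∀ j, ‖lw (fun θ => (∏ l, W θ l ^ μ e l) * h e (W θ)) j θ -
          2 * Real.pi * Complex.I * (μ e j : ℝ)‖ ≤ ε := by
  set M : ℝ := ∑ e, ∑ l, (μ e l : ℝ) with hM
  have hM0 : 0 ≤ M := Finset.sum_nonneg fun e _ => Finset.sum_nonneg fun l _ => Nat.cast_nonneg _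
  have hMe : ∀ e, ∑ l, (μ e l : ℝ) ≤ M := fun e =>
    Finset.single_le_sum (f := fun e => ∑ l, (μ e l : ℝ))
      (fun e _ => Finset.sum_nonneg fun l _ => Nat.cast_nonneg _) (Finset.mem_univ e)
  have hM1 : 0 < M + 1 := by linarith
  obtain ⟨C, W, hC, hWc, hWp, hWg, hWest⟩ := exists_circles
    (T := fun j : Fin N => (Sum.inl j : Fin N ⊕ ι))
    (H := fun i w => match i with
      | Sum.inl j => w j
      | Sum.inr e => h e w)
    (fun i j hij => Sum.inl_injective hij)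
    (fun i => by
      rcases i with j | e
      · exact contDiff_apply ℂ ℂ j
      · exact hh e)
    (fun j w => rfl)
    (fun i hi => by
      rcases i with j | e
      · exact absurd rfl (hi j)
      · exact h0 e)
    (ε := ε / (M + 1)) (by positivity)
  have hgW : ∀ l, Good fun θ => W θ l := fun l => hWg (Sum.inl l)
  have hgh : ∀ e, Good fun θ => h e (W θ) := fun e => hWg (Sum.inr e)
  have hgm : ∀ e, Good fun θ => ∏ l, W θ l ^ μ e l := fun e =>
    good_prod Finset.univ fun l => good_pow (hgW l) (μ e l)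
  refine ⟨(M + 1) * C, W, by positivity, hWc, hWp, fun e => (hgm e).mul (hgh e),
    fun e θ => ⟨?_, fun j => ?_⟩⟩
  · have h1 : Real.log ‖(∏ l, W θ l ^ μ e l) * h e (W θ)‖ =
        ∑ l, (μ e l : ℝ) * Real.log ‖W θ l‖ + Real.log ‖h e (W θ)‖ := by
      rw [norm_mul, Real.log_mul (norm_ne_zero_iff.2 ((hgm e).ne_zero θ))
        (norm_ne_zero_iff.2 ((hgh e).ne_zero θ)), norm_prod, Real.log_prod fun l _ => by
          rw [norm_pow]
          exact pow_ne_zero _ (norm_ne_zero_iff.2 ((hgW l).ne_zero θ))]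
      simp only [norm_pow, Real.log_pow]
    rw [h1]
    refine (abs_add_le _ _).trans ?_
    have h2 : |Real.log ‖h e (W θ)‖| ≤ C := (hWest (Sum.inr e) θ).1
    have h3 : |∑ l, (μ e l : ℝ) * Real.log ‖W θ l‖| ≤ M * C := by
      refine (Finset.abs_sum_le_sum_abs _ _).trans ?_
      refine le_trans (Finset.sum_le_sum fun l _ => ?_) (show ∑ l, (μ e l : ℝ) * C ≤ M * C by
        rw [← Finset.sum_mul]
        exact mul_le_mul_of_nonneg_right (hMe e) hC)
      rw [abs_mul, abs_of_nonneg (Nat.cast_nonneg _)]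
      exact mul_le_mul_of_nonneg_left (hWest (Sum.inl l) θ).1 (Nat.cast_nonneg _)
    linarith
  · have h1 := lw_mul (hgm e) (hgh e) j θ
    have h2 : lw (fun θ => ∏ l, W θ l ^ μ e l) j θ =
        ∑ l, (μ e l : ℂ) * lw (fun θ => W θ l) j θ := by
      rw [lw_prod Finset.univ fun l => good_pow (hgW l) (μ e l)]
      exact Finset.sum_congr rfl fun l _ => lw_pow (hgW l) _ _ _
    rw [h1, h2]
    have h3 : (2 * Real.pi * Complex.I * ((μ e j : ℝ) : ℂ) : ℂ) =
        ∑ l, (μ e l : ℂ) * (2 * Real.pi * Complex.I *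
          ((wT (fun j : Fin N => (Sum.inl j : Fin N ⊕ ι)) (Sum.inl l) j : ℝ) : ℂ)) := by
      rw [Finset.sum_eq_single j]
      · unfold wT
        rw [if_pos rfl]
        push_cast
        ring
      · intro l _ hl
        unfold wT
        rw [if_neg fun h => hl (Sum.inl_injective h).symm]
        simp
      · intro h
        exact absurd (Finset.mem_univ j) h
    rw [h3, add_sub_right_comm, ← Finset.sum_sub_distrib]
    have h4 := (hWest (Sum.inr e) θ).2 j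
    have h5 : wT (fun j : Fin N => (Sum.inl j : Fin N ⊕ ι)) (Sum.inr e) j = 0 := by
      unfold wT
      rw [if_neg (by simp)]
    rw [h5, Complex.ofReal_zero, mul_zero, sub_zero] at h4
    refine (norm_add_le _ _).trans ?_
    have h6 : ‖∑ l, ((μ e l : ℂ) * lw (fun θ => W θ l) j θ - (μ e l : ℂ) *
        (2 * Real.pi * Complex.I *
          ((wT (fun j : Fin N => (Sum.inl j : Fin N ⊕ ι)) (Sum.inl l) j : ℝ) : ℂ)))‖ ≤
        M * (ε / (M + 1)) := by
      refine (norm_sum_le _ _).trans ?_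
      refine le_trans (Finset.sum_le_sum fun l _ => ?_)
        (show ∑ l, (μ e l : ℝ) * (ε / (M + 1)) ≤ M * (ε / (M + 1)) by
          rw [← Finset.sum_mul]
          exact mul_le_mul_of_nonneg_right (hMe e) (by positivity))
      rw [← mul_sub, norm_mul, Complex.norm_natCast]
      exact mul_le_mul_of_nonneg_left ((hWest (Sum.inl l) θ).2 j) (Nat.cast_nonneg _)
    have h7 : M * (ε / (M + 1)) + ε / (M + 1) = ε := by
      field_simp
    exact (add_le_add h6 h4).trans h7.le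

end mono

end Pool.Agent.T6.H53.CT
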