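import Pool.Agent.T6.H53.CT.Ev
import Pool.Agent.T6.H53.CT.Root
import Pool.Agent.T6.H53.CT.Det
set_option autoImplicit false

/-!
The regulators of the symbols on the fibrations over towers of graphs, for large `λ`.
-/

namespace Pool.Agent.T6.H53.CT

open Pool.Agent.TH826.MK

open Pool.Agent.TH826.SX (det_ne_zero_near pairing_close)

open Pool.Agent.TH333.CY (good_inv lw_inv eval_cmon)

open Pool.Agent.Y797.TW (Tower fct IsLow hh mch nex exists_chart exists_rapid eval_mch hh_zero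
  contDiff_hh)

open MvPolynomial (bind₁ map)

section main

variable {K : Type*} [Field K] {s n : ℕ} {A : Tower K n}

/-- the index set of the factors: the factors of `Φ`, the `z_j`, and the `z_j² + κ_j z_j + 1`,
`j ≥ 1` -/
abbrev Idx (A : Tower K n) (s : ℕ) : Type :=
  Option ((j : Fin (n + 1)) × Fin (A.r j + 1)) ⊕ (Fin s ⊕ Fin s)

/-- the exponents of the monomials -/
def muI (s : ℕ) (m : Fin (n + 1) → ℕ)
    (al : Option ((j : Fin (n + 1)) × Fin (A.r j + 1)) → Fin (n + 1) →₀ ℕ) :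
    Idx A s → Fin (s + (n + 1)) → ℕ
  | Sum.inl e => Fin.append (fun _ : Fin s => 0) fun l => nex m (fun i => al e i) l
  | Sum.inr (Sum.inl j) => fun l => if l = Fin.castAdd (n + 1) j then 1 else 0
  | Sum.inr (Sum.inr _) => fun _ => 0

/-- the other factors -/
noncomputable def hI (σ : K →+* ℂ) (κ : Fin (s + 1) → K) (m : Fin (n + 1) → ℕ)
    (x : Fin (n + 1) → MvPolynomial (Fin (n + 1)) ℂ)
    (al : Option ((j : Fin (n + 1)) × Fin (A.r j + 1)) → Fin (n + 1) →₀ ℕ) :
    Idx A s → (Fin (s + (n + 1)) → ℂ) → ℂ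
  | Sum.inl e => fun w => hh m (bind₁ x (map σ (fct A e))) (al e) fun l => w (Fin.natAdd s l)
  | Sum.inr (Sum.inl _) => fun _ => 1
  | Sum.inr (Sum.inr j) => fun w => w (Fin.castAdd (n + 1) j) ^ 2 +
      σ (κ j.succ) * w (Fin.castAdd (n + 1) j) + 1

theorem exists_torus (σ : K →+* ℂ) (κ : Fin (s + 1) → K) (hG : A.Graphs) (c : ∀ j, Fin (A.r j))
    {ε : ℝ} (hε : 0 < ε) :
    ∃ Λ : ℝ, 1 < Λ ∧ ∀ lam : K, Λ ≤ ‖σ lam‖ → ∃ Γ : Torus (TOpen A lam κ) (s + (n + 1)),
      (∀ θ x, Γ.e θ (tcst A lam κ x) = σ x) ∧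
      ∀ k, |Γ.reg (symb (tent A lam κ k)) / Real.log ‖σ lam‖ -
        (2 * Real.pi) ^ (s + (n + 1)) * (if k = c then 1 else 0)| ≤ ε := by
  classical
  obtain ⟨x, al, hal, hal1, hal2⟩ := exists_chart A σ hG fun j => (c j).succ
  set D0 : ℕ := ∑ e, ∑ j, al e j with hD0
  have hD : ∀ e j, al e j ≤ D0 := fun e j =>
    (Finset.single_le_sum (f := fun j => al e j) (fun _ _ => Nat.zero_le _)
      (Finset.mem_univ j)).trans
    (Finset.single_le_sum (f := fun e => ∑ j, al e j) (fun _ _ => Nat.zero_le _)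
      (Finset.mem_univ e))
  obtain ⟨m, hm⟩ := exists_rapid D0 (n + 1)
  set μ : Idx A s → Fin (s + (n + 1)) → ℕ := muI s m al with hμ
  set W0 : Fin (s + (n + 1)) → ℝ := fun j => ∑ i, (μ i j : ℝ) with hW0
  choose δ hδ hclose using fun k : ∀ j, Fin (A.r j) =>
    pairing_close (RR s W0 (BM m al k)) hε
  obtain ⟨k0, -, hk0⟩ := Finset.exists_min_image Finset.univ δ ⟨c, Finset.mem_univ _⟩
  set n1 : ℝ := (Fintype.card (Idx A s) : ℝ) with hn1
  have hn0 : (0 : ℝ) ≤ n1 := Nat.cast_nonneg _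
  set δ0 : ℝ := δ k0 / (n1 + 5) with hδ0
  have hm5 : (0 : ℝ) < n1 + 5 := by positivity
  have hδ0pos : 0 < δ0 := div_pos (hδ k0) hm5
  have hδle : ∀ k, (n1 + 4) * δ0 < δ k := by
    intro k
    have h1 := hk0 k (Finset.mem_univ k)
    have h2 : δ k0 = (n1 + 5) * δ0 := by
      rw [hδ0]
      field_simp
    linarith
  obtain ⟨C1, W, hC1, hWc, hWp, hWg, hWest⟩ := exists_mono (ι := Idx A s) μ
    (h := hI σ κ m x al)
    (fun e => by
      rcases e with e | j | j
      · exact (contDiff_hh m _ _).comp (contDiff_pi.2 fun k => contDiff_apply ℂ ℂ _)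
      · exact contDiff_const
      · exact (((contDiff_apply ℂ ℂ _).pow 2).add
          (contDiff_const.mul (contDiff_apply ℂ ℂ _))).add contDiff_const)
    (fun e => by
      rcases e with e | j | j
      · exact hh_zero hm (hal e) (hD e)
      · exact one_ne_zero
      · show (0 : Fin (s + (n + 1)) → ℂ) (Fin.castAdd (n + 1) j) ^ 2 +
          σ (κ j.succ) * (0 : Fin (s + (n + 1)) → ℂ) (Fin.castAdd (n + 1) j) + 1 ≠ 0
        simp) hδ0pos
  -- the base point
  set V : (Fin (s + (n + 1)) → ℝ) → (Fin (n + 1) → ℂ) := fun θ l => W θ (Fin.natAdd s l) with hV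
  set X : (Fin (s + (n + 1)) → ℝ) → (Fin (n + 1) → ℂ) := fun θ j =>
    MvPolynomial.eval (mch m (V θ)) (x j) with hXdef
  have hval : ∀ (p : MvPolynomial (Fin (n + 1)) K) θ, MvPolynomial.eval₂ σ (X θ) p =
      MvPolynomial.eval (mch m (V θ)) (bind₁ x (map σ p)) := by
    intro p θ
    unfold MvPolynomial.eval
    rw [MvPolynomial.eval₂Hom_bind₁]
    show _ = MvPolynomial.eval₂ (RingHom.id ℂ) _ (map σ p)
    rw [MvPolynomial.eval₂_map, RingHom.id_comp]
    rfl
  -- the functions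
  have hHe : ∀ e θ, (∏ l, W θ l ^ μ (Sum.inl e) l) * hI σ κ m x al (Sum.inl e) (W θ) =
      MvPolynomial.eval₂ σ (X θ) (fct A e) := by
    intro e θ
    rw [hval, eval_mch hm (hal e) (hD e), Fin.prod_univ_add]
    have h1 : ∏ i : Fin s, W θ (Fin.castAdd (n + 1) i) ^ μ (Sum.inl e) (Fin.castAdd (n + 1) i) =
        1 := by
      refine Finset.prod_eq_one fun i _ => ?_
      have h2 : μ (Sum.inl e) (Fin.castAdd (n + 1) i) = 0 :=
        Fin.append_left (fun _ : Fin s => 0) (fun l => nex m (fun i => al e i) l) i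
      rw [h2, pow_zero]
    rw [h1, one_mul]
    congr 1
    refine Finset.prod_congr rfl fun l _ => ?_
    have h2 : μ (Sum.inl e) (Fin.natAdd s l) = nex m (fun i => al e i) l :=
      Fin.append_right (fun _ : Fin s => 0) (fun l => nex m (fun i => al e i) l) l
    rw [h2]
  have hHz : ∀ j θ, (∏ l, W θ l ^ μ (Sum.inr (Sum.inl j)) l) *
      hI σ κ m x al (Sum.inr (Sum.inl j)) (W θ) = W θ (Fin.castAdd (n + 1) j) := by
    intro j θ
    have h1 : hI σ κ m x al (Sum.inr (Sum.inl j)) (W θ) = 1 := rfl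
    rw [h1, mul_one, Finset.prod_eq_single (Fin.castAdd (n + 1) j)]
    · have h2 : μ (Sum.inr (Sum.inl j)) (Fin.castAdd (n + 1) j) = 1 := if_pos rfl
      rw [h2, pow_one]
    · intro l _ hl
      have h2 : μ (Sum.inr (Sum.inl j)) l = 0 := if_neg hl
      rw [h2, pow_zero]
    · intro h
      exact absurd (Finset.mem_univ _) h
  have hHq : ∀ j θ, (∏ l, W θ l ^ μ (Sum.inr (Sum.inr j)) l) *
      hI σ κ m x al (Sum.inr (Sum.inr j)) (W θ) = W θ (Fin.castAdd (n + 1) j) ^ 2 +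
      σ (κ j.succ) * W θ (Fin.castAdd (n + 1) j) + 1 := by
    intro j θ
    have h1 : ∏ l, W θ l ^ μ (Sum.inr (Sum.inr j)) l = 1 :=
      Finset.prod_eq_one fun l _ => pow_zero _
    rw [h1, one_mul]
    rfl
  set h : Idx A s → (Fin (s + (n + 1)) → ℝ) → ℂ := fun i θ =>
    match i with
    | Sum.inl e => MvPolynomial.eval₂ σ (X θ) (fct A e)
    | Sum.inr (Sum.inl j) => W θ (Fin.castAdd (n + 1) j)
    | Sum.inr (Sum.inr j) => (W θ (Fin.castAdd (n + 1) j) ^ 2 +
      σ (κ j.succ) * W θ (Fin.castAdd (n + 1) j) + 1)⁻¹ with hh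
  have hgq : ∀ j, Good fun θ => W θ (Fin.castAdd (n + 1) j) ^ 2 +
      σ (κ j.succ) * W θ (Fin.castAdd (n + 1) j) + 1 := by
    intro j
    have h1 := hWg (Sum.inr (Sum.inr j))
    simp only [hHq] at h1
    exact h1
  have hg : ∀ i, Good (h i) := by
    intro i
    rcases i with e | j | j
    · have h1 := hWg (Sum.inl e)
      simp only [hHe] at h1
      exact h1
    · have h1 := hWg (Sum.inr (Sum.inl j))
      simp only [hHz] at h1
      exact h1
    · exact good_inv (hgq j)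
  have hlogH : ∀ i θ, |Real.log ‖h i θ‖| ≤ C1 := by
    intro i θ
    rcases i with e | j | j
    · have h1 := (hWest (Sum.inl e) θ).1
      rw [hHe] at h1
      exact h1
    · have h1 := (hWest (Sum.inr (Sum.inl j)) θ).1
      rw [hHz] at h1
      exact h1
    · have h1 := (hWest (Sum.inr (Sum.inr j)) θ).1
      rw [hHq] at h1
      show |Real.log ‖(W θ (Fin.castAdd (n + 1) j) ^ 2 +
        σ (κ j.succ) * W θ (Fin.castAdd (n + 1) j) + 1)⁻¹‖| ≤ C1
      rw [norm_inv, Real.log_inv, abs_neg]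
      exact h1
  have hlwH : ∀ i θ j, ‖lw (h i) j θ - 2 * Real.pi * Complex.I * (μ i j : ℝ)‖ ≤ δ0 := by
    intro i θ j
    rcases i with e | i | i
    · have h1 := (hWest (Sum.inl e) θ).2 j
      simp only [hHe] at h1
      exact h1
    · have h1 := (hWest (Sum.inr (Sum.inl i)) θ).2 j
      simp only [hHz] at h1
      exact h1
    · have h1 := (hWest (Sum.inr (Sum.inr i)) θ).2 j
      simp only [hHq] at h1
      have h0 : (μ (Sum.inr (Sum.inr i)) j : ℝ) = 0 := by
        have : μ (Sum.inr (Sum.inr i)) j = 0 := rfl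
        rw [this, Nat.cast_zero]
      rw [h0, Complex.ofReal_zero, mul_zero, sub_zero] at h1 ⊢
      have h2 := lw_inv (hgq i) j θ
      have h3 : lw (h (Sum.inr (Sum.inr i))) j θ =
          - lw (fun θ => W θ (Fin.castAdd (n + 1) i) ^ 2 +
            σ (κ i.succ) * W θ (Fin.castAdd (n + 1) i) + 1) j θ := h2
      rw [h3, norm_neg]
      exact h1
  -- the function `F0`
  set F0 : (Fin (s + (n + 1)) → ℝ) → ℂ := fun θ => ∏ i, h i θ with hF0
  have hF0g : Good F0 := good_prod Finset.univ hg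
  have hlogF0 : ∀ θ, |Real.log ‖F0 θ‖| ≤ n1 * C1 := by
    intro θ
    simp only [hF0]
    rw [norm_prod, Real.log_prod fun e _ => norm_ne_zero_iff.2 ((hg e).ne_zero θ)]
    refine (Finset.abs_sum_le_sum_abs _ _).trans ?_
    refine (Finset.sum_le_sum fun e _ => hlogH e θ).trans ?_
    rw [Finset.sum_const, Finset.card_univ, nsmul_eq_mul]
  have hlwF0 : ∀ j θ, ‖lw F0 j θ - 2 * Real.pi * Complex.I * (W0 j : ℝ)‖ ≤ n1 * δ0 := by
    intro j θ
    have h1 : lw F0 j θ = ∑ i, lw (h i) j θ := lw_prod Finset.univ hg j θ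
    have h3 : (2 * Real.pi * Complex.I * ((W0 j : ℝ) : ℂ) : ℂ) =
        ∑ i, 2 * Real.pi * Complex.I * ((μ i j : ℝ) : ℂ) := by
      rw [← Finset.mul_sum, hW0, Complex.ofReal_sum]
    rw [h1, h3, ← Finset.sum_sub_distrib]
    refine (norm_sum_le _ _).trans ?_
    refine (Finset.sum_le_sum fun e _ => hlwH e θ j).trans ?_
    rw [Finset.sum_const, Finset.card_univ, nsmul_eq_mul]
  have hpi := Real.pi_pos
  have h2pi : ‖(2 * Real.pi * Complex.I : ℂ)‖ = 2 * Real.pi := by
    rw [norm_mul, norm_mul, Complex.norm_I, Complex.norm_real, Complex.norm_ofNat, mul_one,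
      Real.norm_eq_abs, abs_of_pos Real.pi_pos]
  set E0 : ℝ := ∑ j, 2 * Real.pi * |W0 j| + n1 * δ0 with hE0
  have hE00 : 0 ≤ E0 := add_nonneg (Finset.sum_nonneg fun j _ => by positivity) (by positivity)
  have hnlwF0 : ∀ j θ, ‖lw F0 j θ‖ ≤ E0 := by
    intro j θ
    have h1 := norm_sub_norm_le (lw F0 j θ) (2 * Real.pi * Complex.I * ((W0 j : ℝ) : ℂ))
    have h3 := hlwF0 j θ
    rw [norm_mul, h2pi, Complex.norm_real, Real.norm_eq_abs] at h1
    have h4 : 2 * Real.pi * |W0 j| ≤ ∑ j, 2 * Real.pi * |W0 j| :=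
      Finset.single_le_sum (f := fun j => 2 * Real.pi * |W0 j|) (fun j _ => by positivity)
        (Finset.mem_univ j)
    rw [hE0]
    linarith
  obtain ⟨Λ, hΛ1, hΛ⟩ := exists_root hF0g (mul_nonneg hn0 hC1) hE00 hlogF0 hnlwF0 (σ (κ 0)) hδ0pos
  set M : ℝ := C1 / δ0 + 1 with hM
  have hM1 : 0 ≤ C1 / δ0 := by positivity
  refine ⟨Λ + Real.exp M, by linarith [Real.exp_pos M], fun lam hlam => ?_⟩
  have hln : 0 < ‖σ lam‖ := by linarith [Real.exp_pos M]
  have hl0 : σ lam ≠ 0 := norm_pos_iff.1 hln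
  set q : ℝ := Real.log ‖σ lam‖ with hqdef
  have hqM : M ≤ q := by
    rw [hqdef, Real.le_log_iff_exp_le hln]
    linarith
  have hqpos : 0 < q := by linarith
  have hq0 : q ≠ 0 := hqpos.ne'
  have hCq : C1 ≤ δ0 * q := by
    have h1 : C1 / δ0 ≤ q := by linarith
    rw [div_le_iff₀ hδ0pos] at h1
    linarith
  obtain ⟨hF4, hzg, hzlog, hzlw⟩ := hΛ (σ lam) (by linarith [Real.exp_pos M])
  -- the points
  set Z : (Fin (s + (n + 1)) → ℝ) → (Fin (s + 1) → ℂ) := fun θ =>
    Fin.cons (zeta (σ lam * F0 θ - σ (κ 0))) fun j => W θ (Fin.castAdd (n + 1) j) with hZdef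
  set p : (Fin (s + (n + 1)) → ℝ) → (Fin (s + 1) ⊕ Fin (n + 1) → ℂ) := fun θ =>
    Sum.elim (Z θ) (X θ) with hpdef
  have hWk : ∀ k, ContDiff ℝ 2 fun θ => W θ k := fun k => contDiff_pi.1 hWc k
  have hVc : ContDiff ℝ 2 V := contDiff_pi.2 fun l => hWk _
  have hmch : ContDiff ℝ 2 fun θ => mch m (V θ) := by
    refine contDiff_pi.2 fun j => ?_
    unfold mch
    exact contDiff_prod fun l _ => (contDiff_pi.1 hVc l).pow _
  have hXc : ContDiff ℝ 2 X := by
    refine contDiff_pi.2 fun j => ?_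
    have h1 : ∀ p : MvPolynomial (Fin (n + 1)) ℂ, ContDiff ℝ 2
        fun θ => MvPolynomial.eval (mch m (V θ)) p := by
      intro p
      induction p using MvPolynomial.induction_on with
      | C c => simpa using contDiff_const
      | add p q hp hq => simpa using hp.add hq
      | mul_X p k hp => simpa using hp.mul (contDiff_pi.1 hmch k)
    exact h1 (x j)
  have hpc : ContDiff ℝ 2 p := by
    refine contDiff_pi.2 fun k => ?_
    rcases k with j | k
    · refine Fin.cases ?_ (fun j => ?_) j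
      · exact hzg.smooth
      · exact hWk _
    · exact contDiff_pi.1 hXc k
  have hVp : ∀ θ i, V (θ + Pi.single i 1) = V θ := fun θ i => by simp only [hV, hWp]
  have hXp : ∀ θ i, X (θ + Pi.single i 1) = X θ := fun θ i => by simp only [hXdef, hVp]
  have hFp : ∀ θ i, F0 (θ + Pi.single i 1) = F0 θ := by
    intro θ i
    simp only [hF0]
    refine Finset.prod_congr rfl fun k _ => ?_
    rcases k with e | j | j <;> simp only [hh, hWp, hXp]
  have hpp : ∀ θ i, p (θ + Pi.single i 1) = p θ := by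
    intro θ i
    simp only [hpdef, hZdef, hXp, hWp, hFp]
  have hfac0 : ∀ θ j, W θ (Fin.castAdd (n + 1) j) ^ 2 +
      σ (κ j.succ) * W θ (Fin.castAdd (n + 1) j) + 1 ≠ 0 := fun θ j => (hgq j).ne_zero θ
  have hw0 : ∀ θ j, W θ (Fin.castAdd (n + 1) j) ≠ 0 := fun θ j =>
    (hg (Sum.inr (Sum.inl j))).ne_zero θ
  have hl00 : ∀ θ e, MvPolynomial.eval₂ σ (X θ) (fct A e) ≠ 0 := fun θ e =>
    (hg (Sum.inl e)).ne_zero θ
  have hPprod : ∀ θ, MvPolynomial.eval₂ σ (X θ) A.prod =
      ∏ e, MvPolynomial.eval₂ σ (X θ) (fct A e) := by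
    intro θ
    rw [Fintype.prod_option, Fintype.prod_sigma]
    unfold Tower.prod
    rw [MvPolynomial.eval₂_mul, MvPolynomial.eval₂_prod]
    simp only [MvPolynomial.eval₂_prod]
    rfl
  have hP0 : ∀ θ, MvPolynomial.eval₂ σ (X θ) A.prod ≠ 0 := by
    intro θ
    rw [hPprod]
    exact Finset.prod_ne_zero_iff.2 fun e _ => hl00 θ e
  have hzeta0 : ∀ θ, zeta (σ lam * F0 θ - σ (κ 0)) ≠ 0 := fun θ => hzg.ne_zero θ
  have hFprod : ∀ θ, F0 θ * ∏ j : Fin s, (W θ (Fin.castAdd (n + 1) j) ^ 2 +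
      σ (κ j.succ) * W θ (Fin.castAdd (n + 1) j) + 1) =
      MvPolynomial.eval₂ σ (X θ) A.prod * ∏ j : Fin s, W θ (Fin.castAdd (n + 1) j) := by
    intro θ
    have h1 : F0 θ = MvPolynomial.eval₂ σ (X θ) A.prod *
        ((∏ j : Fin s, W θ (Fin.castAdd (n + 1) j)) *
        ∏ j : Fin s, (W θ (Fin.castAdd (n + 1) j) ^ 2 +
          σ (κ j.succ) * W θ (Fin.castAdd (n + 1) j) + 1)⁻¹) := by
      simp only [hF0]
      rw [Fintype.prod_sum_type, Fintype.prod_sum_type, hPprod]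
    rw [h1, Finset.prod_inv_distrib]
    have h2 : ∏ j : Fin s, (W θ (Fin.castAdd (n + 1) j) ^ 2 +
        σ (κ j.succ) * W θ (Fin.castAdd (n + 1) j) + 1) ≠ 0 :=
      Finset.prod_ne_zero_iff.2 fun j _ => hfac0 θ j
    have h3 : ∀ A w P : ℂ, P ≠ 0 → (A * (w * P⁻¹)) * P = A * w := by
      intro A w P hP
      field_simp
    exact h3 _ _ _ h2
  have hPt : ∀ θ, TPt σ A lam κ (p θ) := by
    intro θ
    have hinr : (fun j => p θ (Sum.inr j)) = X θ := rfl
    constructor
    · have e1 : ∏ j, (p θ (Sum.inl j) ^ 2 + σ (κ j) * p θ (Sum.inl j) + 1) =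
          (zeta (σ lam * F0 θ - σ (κ 0)) ^ 2 + σ (κ 0) * zeta (σ lam * F0 θ - σ (κ 0)) + 1) *
          ∏ j : Fin s, (W θ (Fin.castAdd (n + 1) j) ^ 2 +
            σ (κ j.succ) * W θ (Fin.castAdd (n + 1) j) + 1) := Fin.prod_univ_succ _
      have e2 : ∏ j, p θ (Sum.inl j) =
          zeta (σ lam * F0 θ - σ (κ 0)) * ∏ j : Fin s, W θ (Fin.castAdd (n + 1) j) :=
        Fin.prod_univ_succ _
      rw [eval_teqn, e1, e2, hinr]
      have h1 := zeta_eq (w := σ lam * F0 θ - σ (κ 0)) (by linarith [hF4 θ])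
      have h2 := hFprod θ
      linear_combination (∏ j : Fin s, (W θ (Fin.castAdd (n + 1) j) ^ 2 +
        σ (κ j.succ) * W θ (Fin.castAdd (n + 1) j) + 1)) * h1 +
        σ lam * zeta (σ lam * F0 θ - σ (κ 0)) * h2
    · rw [MvPolynomial.eval₂_mul, eval_tPhi, eval_cmon, hinr]
      refine mul_ne_zero (mul_ne_zero hl0 (hP0 θ))
        (Finset.prod_ne_zero_iff.2 fun j _ => ?_)
      refine Fin.cases ?_ (fun j => ?_) j
      · exact hzeta0 θ
      · exact hw0 θ j
  refine ⟨mkT p hpc hpp hPt, fun θ x => (hPt θ).evA_tcst x, fun k => ?_⟩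
  have hfin : (2 * Real.pi) ^ (s + (n + 1)) * (if k = c then (1 : ℝ) else 0) =
      (2 * Real.pi) ^ (s + (n + 1)) * (RR s W0 (BM m al k)).det := by
    rw [det_RR, det_BM m al c hal1 hal2 k]
  rw [Torus.reg_symb, hfin]
  set Γ := mkT p hpc hpp hPt with hΓ
  have hau : ∀ j i, Γ.fn (tu A lam κ j i : TOpen A lam κ) = h (Sum.inl (some ⟨j, i⟩)) :=
    fun j i => mkT_tu p hpc hpp hPt j i
  have hgoodE : ∀ l, Good (Γ.fn (tent A lam κ k l : TOpen A lam κ)) := fun l => Γ.good _
  have hgoodU : ∀ j i, Good (Γ.fn (tu A lam κ j i : TOpen A lam κ)) := fun j i => Γ.good _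
  have hent : ∀ l : Fin (n + 1), tent A lam κ k (Fin.natAdd s l).succ =
      tu A lam κ l (k l).succ / tu A lam κ l 0 := by
    intro l
    unfold tent
    rw [Fin.cons_succ, Fin.append_right]
  have hentl : ∀ j : Fin s, tent A lam κ k (Fin.castAdd (n + 1) j).succ =
      tz A lam κ j.succ := by
    intro j
    unfold tent
    rw [Fin.cons_succ, Fin.append_left]
  have hmul : ∀ l : Fin (n + 1), (fun θ => Γ.fn (tent A lam κ k (Fin.natAdd s l).succ :
      TOpen A lam κ) θ * Γ.fn (tu A lam κ l 0 : TOpen A lam κ) θ) =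
      Γ.fn (tu A lam κ l (k l).succ : TOpen A lam κ) := by
    intro l
    funext θ
    unfold Torus.fn
    rw [← map_mul, ← Units.val_mul, hent, div_mul_cancel]
  have hzfn : Γ.fn (tent A lam κ k 0 : TOpen A lam κ) =
      fun θ => zeta (σ lam * F0 θ - σ (κ 0)) := mkT_tz p hpc hpp hPt 0
  have hwfn : ∀ j : Fin s, Γ.fn (tent A lam κ k (Fin.castAdd (n + 1) j).succ :
      TOpen A lam κ) = h (Sum.inr (Sum.inl j)) := by
    intro j
    rw [hentl]
    exact mkT_tz p hpc hpp hPt j.succ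
  have hn4 : 2 * δ0 ≤ (n1 + 4) * δ0 := mul_le_mul_of_nonneg_right (by linarith) hδ0pos.le
  have hn41 : δ0 ≤ (n1 + 4) * δ0 := by nlinarith
  have hUlog : ∀ j i θ, |Real.log ‖Γ.fn (tu A lam κ j i : TOpen A lam κ) θ‖ / q| ≤ δ0 := by
    intro j i θ
    rw [hau, abs_div, abs_of_pos hqpos, div_le_iff₀ hqpos]
    exact (hlogH (Sum.inl (some ⟨j, i⟩)) θ).trans hCq
  refine hclose k _ _ hq0 hgoodE (fun l θ => ?_) (fun l j θ => ?_)
  · revert l
    refine Fin.cases ?_ (fun l => ?_)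
    · rw [RR_zero, Fin.cons_zero, congrFun hzfn θ]
      exact lt_of_le_of_lt ((hzlog θ).trans hn41) (hδle k)
    · rw [RR_col, sub_zero]
      refine lt_of_le_of_lt ?_ (hδle k)
      refine Fin.addCases (fun j => ?_) (fun l => ?_) l
      · rw [hwfn, abs_div, abs_of_pos hqpos, div_le_iff₀ hqpos]
        refine ((hlogH (Sum.inr (Sum.inl j)) θ).trans hCq).trans ?_
        exact mul_le_mul_of_nonneg_right hn41 hqpos.le
      · have h1 := hUlog l (k l).succ θ
        have h2 := hUlog l 0 θ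
        have h3 : Real.log ‖Γ.fn (tent A lam κ k (Fin.natAdd s l).succ :
            TOpen A lam κ) θ * Γ.fn (tu A lam κ l 0 : TOpen A lam κ) θ‖ =
            Real.log ‖Γ.fn (tu A lam κ l (k l).succ : TOpen A lam κ) θ‖ :=
          congrArg (fun z : ℂ => Real.log ‖z‖) (congrFun (hmul l) θ)
        rw [norm_mul, Real.log_mul (norm_ne_zero_iff.2 ((hgoodE _).ne_zero θ))
          (norm_ne_zero_iff.2 ((hgoodU l 0).ne_zero θ))] at h3
        have h4 : Real.log ‖Γ.fn (tent A lam κ k (Fin.natAdd s l).succ :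
            TOpen A lam κ) θ‖ =
            Real.log ‖Γ.fn (tu A lam κ l (k l).succ : TOpen A lam κ) θ‖ -
            Real.log ‖Γ.fn (tu A lam κ l 0 : TOpen A lam κ) θ‖ := by
          linarith
        rw [h4, sub_div]
        have h5 := abs_le.1 h1
        have h6 := abs_le.1 h2
        rw [abs_le]
        constructor <;> linarith [h5.1, h5.2, h6.1, h6.2]
  · revert l
    refine Fin.cases ?_ (fun l => ?_)
    · rw [RR_zero, Fin.cons_succ, hzfn]
      have h1 := hzlw j θ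
      have h2 := hlwF0 j θ
      have h3 : lw (fun θ => zeta (σ lam * F0 θ - σ (κ 0))) j θ -
          2 * Real.pi * Complex.I * ((W0 j : ℝ) : ℂ) =
          (lw (fun θ => zeta (σ lam * F0 θ - σ (κ 0))) j θ - lw F0 j θ) +
          (lw F0 j θ - 2 * Real.pi * Complex.I * ((W0 j : ℝ) : ℂ)) := by ring
      rw [h3]
      refine lt_of_le_of_lt ((norm_add_le _ _).trans (add_le_add h1 h2)) ?_
      have h4 := hδle k
      linarith
    · refine lt_of_le_of_lt ?_ (hδle k)
      refine Fin.addCases (fun i => ?_) (fun l => ?_) l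
      · rw [RR_left, Fin.cons_succ, hwfn]
        have h1 := hlwH (Sum.inr (Sum.inl i)) θ j
        have h2 : ((μ (Sum.inr (Sum.inl i)) j : ℕ) : ℝ) =
            if j = Fin.castAdd (n + 1) i then 1 else 0 := by
          have h3 : μ (Sum.inr (Sum.inl i)) j = if j = Fin.castAdd (n + 1) i then 1 else 0 := rfl
          rw [h3]
          push_cast
          rfl
        rw [h2] at h1
        exact h1.trans hn41
      · rw [RR_right, Fin.cons_succ]
        have hB : (Fin.append (fun _ : Fin s => 0) (BM m al k l) : Fin (s + (n + 1)) → ℝ) j =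
            ((μ (Sum.inl (some ⟨l, (k l).succ⟩)) j : ℕ) : ℝ) -
            ((μ (Sum.inl (some ⟨l, 0⟩)) j : ℕ) : ℝ) := by
          refine Fin.addCases (fun i => ?_) (fun i => ?_) j
          · rw [Fin.append_left]
            have h2 : ∀ e, μ (Sum.inl e) (Fin.castAdd (n + 1) i) = 0 := fun e =>
              Fin.append_left (fun _ : Fin s => 0) (fun l => nex m (fun i => al e i) l) i
            rw [h2, h2, sub_self]
          · rw [Fin.append_right]
            have h2 : ∀ e, μ (Sum.inl e) (Fin.natAdd s i) = nex m (fun i => al e i) i := fun e =>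
              Fin.append_right (fun _ : Fin s => 0) (fun l => nex m (fun i => al e i) l) i
            rw [h2, h2]
            rfl
        rw [hB]
        have h1 := hlwH (Sum.inl (some ⟨l, (k l).succ⟩)) θ j
        have h2 := hlwH (Sum.inl (some ⟨l, 0⟩)) θ j
        rw [← hau] at h1 h2
        have h3 := lw_mul (hgoodE (Fin.natAdd s l).succ) (hgoodU l 0) j θ
        rw [hmul l] at h3
        have h4 : lw (Γ.fn (tent A lam κ k (Fin.natAdd s l).succ : TOpen A lam κ)) j θ =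
            lw (Γ.fn (tu A lam κ l (k l).succ : TOpen A lam κ)) j θ -
            lw (Γ.fn (tu A lam κ l 0 : TOpen A lam κ)) j θ := by
          rw [h3]
          ring
        rw [h4]
        have e2 : lw (Γ.fn (tu A lam κ l (k l).succ : TOpen A lam κ)) j θ -
            lw (Γ.fn (tu A lam κ l 0 : TOpen A lam κ)) j θ - 2 * Real.pi * Complex.I *
              ((((μ (Sum.inl (some ⟨l, (k l).succ⟩)) j : ℕ) : ℝ) -
                ((μ (Sum.inl (some ⟨l, 0⟩)) j : ℕ) : ℝ) : ℝ) : ℂ) =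
            (lw (Γ.fn (tu A lam κ l (k l).succ : TOpen A lam κ)) j θ -
              2 * Real.pi * Complex.I * ((μ (Sum.inl (some ⟨l, (k l).succ⟩)) j : ℝ) : ℂ)) -
            (lw (Γ.fn (tu A lam κ l 0 : TOpen A lam κ)) j θ -
              2 * Real.pi * Complex.I * ((μ (Sum.inl (some ⟨l, 0⟩)) j : ℝ) : ℂ)) := by
          push_cast
          ring
        rw [e2]
        refine (norm_sub_le _ _).trans ?_
        linarith

theorem exists_tori (σ : K →+* ℂ) (κ : Fin (s + 1) → K) (hG : A.Graphs) :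
    ∃ C : ℝ, 1 ≤ C ∧ ∀ lam : K, C ≤ ‖σ lam‖ →
      ∃ Γ : (∀ j, Fin (A.r j)) → Torus (TOpen A lam κ) (s + (n + 1)),
        (∀ t θ x, (Γ t).e θ (tcst A lam κ x) = σ x) ∧
        (Matrix.of fun t k : (∀ j, Fin (A.r j)) =>
          (Γ t).reg (symb (tent A lam κ k))).det ≠ 0 := by
  classical
  set D0 : ℝ := (2 * Real.pi) ^ (s + (n + 1)) with hD0
  have hD : D0 ≠ 0 := by
    have := Real.pi_pos
    positivity
  have hlead : (D0 • (1 : Matrix (∀ j, Fin (A.r j)) (∀ j, Fin (A.r j)) ℝ)).det ≠ 0 := by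
    rw [Matrix.det_smul, Matrix.det_one, mul_one]
    exact pow_ne_zero _ hD
  obtain ⟨δ, hδ, hdet'⟩ := det_ne_zero_near _ hlead
  choose Λ hΛ1 hΛ using fun t : (∀ j, Fin (A.r j)) =>
    exists_torus (A := A) σ κ hG t (ε := δ / 2) (by linarith)
  set C : ℝ := ∑ t, |Λ t| + 2 with hC
  have hsum : 0 ≤ ∑ t, |Λ t| := Finset.sum_nonneg fun J _ => abs_nonneg _
  have hΛC : ∀ t, Λ t ≤ C := by
    intro t
    have h1 := Finset.single_le_sum (f := fun t => |Λ t|) (fun t _ => abs_nonneg _)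
      (Finset.mem_univ t)
    have h2 := le_abs_self (Λ t)
    have h3 : |Λ t| ≤ ∑ t, |Λ t| := h1
    linarith
  refine ⟨C, by linarith, fun lam hlam => ?_⟩
  choose Γ hΓ1 hΓ2 using fun t => hΛ t lam ((hΛC t).trans hlam)
  refine ⟨Γ, hΓ1, ?_⟩
  have hs : Real.log ‖σ lam‖ ≠ 0 := by
    have : 0 < Real.log ‖σ lam‖ := Real.log_pos (by linarith)
    linarith
  set q : ℝ := Real.log ‖σ lam‖ with hqdef
  have h1 : (Matrix.of fun t k : (∀ j, Fin (A.r j)) =>
      (Γ t).reg (symb (tent A lam κ k)) / q).det ≠ 0 := by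
    refine hdet' _ fun t k => ?_
    rw [Matrix.of_apply, Matrix.smul_apply, Matrix.one_apply, smul_eq_mul]
    refine lt_of_le_of_lt ?_ (show δ / 2 < δ by linarith)
    have h2 := hΓ2 t k
    have h3 : (if t = k then (1 : ℝ) else 0) = if k = t then 1 else 0 := by
      by_cases h : t = k
      · rw [if_pos h, if_pos h.symm]
      · rw [if_neg h, if_neg (Ne.symm h)]
    rw [h3]
    exact h2
  have h2 : (Matrix.of fun t k : (∀ j, Fin (A.r j)) =>
      (Γ t).reg (symb (tent A lam κ k))) =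
      q • (Matrix.of fun t k : (∀ j, Fin (A.r j)) =>
        (Γ t).reg (symb (tent A lam κ k)) / q) := by
    ext t k
    rw [Matrix.smul_apply, Matrix.of_apply, Matrix.of_apply, smul_eq_mul]
    field_simp
  rw [h2, Matrix.det_smul]
  exact mul_ne_zero (pow_ne_zero _ hs) h1

end main

end Pool.Agent.T6.H53.CT
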