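import Pool.Agent.TH333.CY.Ring
import Pool.Agent.Y797.TW.Def
set_option autoImplicit false

/-!
The fibrations `∏_j (z_j + κ_j + 1/z_j) = λ g ∏_j ∏_i (x_j - φ_{j,i}(x_{j+1}, ..., x_n))` over the
affine space, and the symbols
`{z_0, ..., z_s, (x_0 - φ_{0,k_0+1})/(x_0 - φ_{0,0}), ..., (x_n - φ_{n,k_n+1})/(x_n - φ_{n,0})}`.
-/

namespace Pool.Agent.T6.H53.CT

open scoped WithZero

open Pool.Agent.TH826.MK (KQ symb Unramified unitPart)

open Pool.Agent.TH333.CY (cfac cmon gpr iso iso_zero iso_succ iso_C iso_rename eval_gpr gpr_ne_zero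
  irreducible_quad isRelPrime_fac)

open Pool.Agent.Y797.TW (Tower)

section Ring

variable {K : Type*} [Field K] {s n : ℕ} (A : Tower K n) (lam : K) (κ : Fin (s + 1) → K)

/-- The polynomial `Φ = λ g ∏_j ∏_i (x_j - φ_{j,i})` in the variables `x_0, ..., x_n`. -/
noncomputable def bPhi : MvPolynomial (Fin (n + 1)) K := MvPolynomial.C lam * A.prod

/-- The polynomial `Φ` as a polynomial in the variables `z_0, ..., z_s, x_0, ..., x_n`. -/
noncomputable def tPhi (s : ℕ) : MvPolynomial (Fin (s + 1) ⊕ Fin (n + 1)) K :=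
  MvPolynomial.rename Sum.inr (bPhi A lam)

/-- The equation `∏_j (z_j² + κ_j z_j + 1) - Φ ∏_j z_j`. -/
noncomputable def teqn : MvPolynomial (Fin (s + 1) ⊕ Fin (n + 1)) K :=
  ∏ j, cfac κ n j - tPhi A lam s * cmon K s n

/-- The coordinate ring of the hypersurface `∏_j (z_j² + κ_j z_j + 1) = Φ ∏_j z_j` in the affine
space with the coordinates `z_0, ..., z_s, x_0, ..., x_n`. -/
def TRing : Type _ :=
  MvPolynomial (Fin (s + 1) ⊕ Fin (n + 1)) K ⧸ Ideal.span {teqn A lam κ}

noncomputable instance : CommRing (TRing A lam κ) :=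
  Ideal.Quotient.commRing (Ideal.span {teqn A lam κ})

/-- The polynomials as functions on the hypersurface. -/
noncomputable def tpol : MvPolynomial (Fin (s + 1) ⊕ Fin (n + 1)) K →+* TRing A lam κ :=
  Ideal.Quotient.mk (Ideal.span {teqn A lam κ})

/-- The function `Φ ∏_j z_j` on the hypersurface. -/
noncomputable def tdel : TRing A lam κ := tpol A lam κ (tPhi A lam s * cmon K s n)

/-- The polynomial `Φ ∏_j z_j T - 1`. -/
noncomputable def teqnO : Polynomial (TRing A lam κ) :=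
  Polynomial.C (tdel A lam κ) * Polynomial.X - 1

/-- The coordinate ring of the open part `Φ ∏_j z_j ≠ 0` of the hypersurface: the ring obtained from
the coordinate ring of the hypersurface by adjoining `T` with `Φ ∏_j z_j T = 1`. -/
def TOpen : Type _ := AdjoinRoot (teqnO A lam κ)

noncomputable instance : CommRing (TOpen A lam κ) := AdjoinRoot.instCommRing (teqnO A lam κ)

/-- The restriction of functions to the open part. -/
noncomputable def toT : TRing A lam κ →+* TOpen A lam κ := AdjoinRoot.of (teqnO A lam κ)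

/-- The constants. -/
noncomputable def tcst : K →+* TOpen A lam κ :=
  (toT A lam κ).comp ((tpol A lam κ).comp MvPolynomial.C)

theorem tpol_teqn : tpol A lam κ (teqn A lam κ) = 0 :=
  Ideal.Quotient.eq_zero_iff_mem.2 (Ideal.subset_span rfl)

theorem isUnit_tdel : IsUnit (toT A lam κ (tdel A lam κ)) := by
  have h := AdjoinRoot.mk_self (f := teqnO A lam κ)
  have h2 : AdjoinRoot.mk (teqnO A lam κ) (teqnO A lam κ) =
      AdjoinRoot.of (teqnO A lam κ) (tdel A lam κ) *
      AdjoinRoot.root (teqnO A lam κ) - 1 := by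
    conv_lhs => rw [show AdjoinRoot.mk (teqnO A lam κ) (teqnO A lam κ) =
      AdjoinRoot.mk (teqnO A lam κ)
      (Polynomial.C (tdel A lam κ) * Polynomial.X - 1) from rfl]
    rw [map_sub, map_mul, map_one, AdjoinRoot.mk_X, AdjoinRoot.mk_C]
  rw [h2, sub_eq_zero] at h
  exact IsUnit.of_mul_eq_one _ h

theorem isUnit_tz (j : Fin (s + 1)) :
    IsUnit (toT A lam κ (tpol A lam κ (MvPolynomial.X (Sum.inl j)))) := by
  refine isUnit_of_dvd_unit (map_dvd _ (map_dvd _ ?_)) (isUnit_tdel A lam κ)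
  exact Dvd.dvd.mul_left (Finset.dvd_prod_of_mem
    (fun j => (MvPolynomial.X (Sum.inl j) : MvPolynomial (Fin (s + 1) ⊕ Fin (n + 1)) K))
    (Finset.mem_univ j)) _

theorem isUnit_tu (j : Fin (n + 1)) (i : Fin (A.r j + 1)) :
    IsUnit (toT A lam κ (tpol A lam κ (MvPolynomial.rename Sum.inr (A.fac j i)))) := by
  refine isUnit_of_dvd_unit (map_dvd _ (map_dvd _ ?_)) (isUnit_tdel A lam κ)
  refine Dvd.dvd.mul_right (map_dvd (MvPolynomial.rename Sum.inr) ?_) _
  refine Dvd.dvd.mul_left (Dvd.dvd.mul_left ?_ _) _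
  exact (Finset.dvd_prod_of_mem (fun i => A.fac j i) (Finset.mem_univ i)).trans
    (Finset.dvd_prod_of_mem (fun j => ∏ i, A.fac j i) (Finset.mem_univ j))

/-- The unit `z_j`. -/
noncomputable def tz (j : Fin (s + 1)) : (TOpen A lam κ)ˣ := (isUnit_tz A lam κ j).unit

/-- The unit `x_j - φ_{j,i}`. -/
noncomputable def tu (j : Fin (n + 1)) (i : Fin (A.r j + 1)) : (TOpen A lam κ)ˣ :=
  (isUnit_tu A lam κ j i).unit

theorem coe_tz (j : Fin (s + 1)) : (tz A lam κ j : TOpen A lam κ) =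
    toT A lam κ (tpol A lam κ (MvPolynomial.X (Sum.inl j))) := rfl

theorem coe_tu (j : Fin (n + 1)) (i : Fin (A.r j + 1)) : (tu A lam κ j i : TOpen A lam κ) =
    toT A lam κ (tpol A lam κ (MvPolynomial.rename Sum.inr (A.fac j i))) := rfl

/-- The entries `z_0, ..., z_s` and `(x_j - φ_{j,k_j+1}) / (x_j - φ_{j,0})`, `j = 0, ..., n`, of the
symbol of `k`. -/
noncomputable def tent (k : ∀ j, Fin (A.r j)) : Fin (s + (n + 1) + 1) → (TOpen A lam κ)ˣ :=
  Fin.cons (tz A lam κ 0) (Fin.append (fun j : Fin s => tz A lam κ j.succ)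
    fun j : Fin (n + 1) => tu A lam κ j (k j).succ / tu A lam κ j 0)

end Ring

section Domain

variable {K : Type*} [Field K] {s n : ℕ} {A : Tower K n} {lam : K} {κ : Fin (s + 1) → K}

theorem fac_ne_C (hG : A.Graphs) (j : Fin (n + 1)) (i : Fin (A.r j + 1)) (y : K) :
    A.fac j i ≠ MvPolynomial.C y := by
  intro h
  have h1 : (MvPolynomial.X j : MvPolynomial (Fin (n + 1)) K) = A.phi j i + MvPolynomial.C y := by
    rw [← h]
    unfold Tower.fac
    ring
  have h2 : j ∈ (MvPolynomial.X j : MvPolynomial (Fin (n + 1)) K).vars := by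
    rw [MvPolynomial.vars_X]
    exact Finset.mem_singleton_self j
  classical
  rw [h1] at h2
  rcases Finset.mem_union.1 (MvPolynomial.vars_add_subset _ _ h2) with h3 | h3
  · exact lt_irrefl _ (hG.1 j i j h3)
  · rw [MvPolynomial.vars_C] at h3
    exact absurd h3 (Finset.notMem_empty j)

theorem bPhi_ne_zero (hG : A.Graphs) (hl : lam ≠ 0) : bPhi A lam ≠ 0 := by
  unfold bPhi Tower.prod
  refine mul_ne_zero ((MvPolynomial.C_eq_zero).not.2 hl) (mul_ne_zero hG.2.2 ?_)
  refine Finset.prod_ne_zero_iff.2 fun j _ => Finset.prod_ne_zero_iff.2 fun i _ => ?_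
  intro h
  exact fac_ne_C hG j i 0 (by rw [h, map_zero])

theorem bPhi_ne_C (hG : A.Graphs) (hl : lam ≠ 0) (y : K) : bPhi A lam ≠ MvPolynomial.C y := by
  intro h
  have hy : y ≠ 0 := by
    rintro rfl
    exact bPhi_ne_zero hG hl (by rw [h, map_zero])
  have h1 : A.fac 0 0 ∣ bPhi A lam := by
    unfold bPhi Tower.prod
    refine Dvd.dvd.mul_left (Dvd.dvd.mul_left ?_ _) _
    exact (Finset.dvd_prod_of_mem (fun i => A.fac 0 i) (Finset.mem_univ 0)).trans
      (Finset.dvd_prod_of_mem (fun j => ∏ i, A.fac j i) (Finset.mem_univ 0))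
  rw [h] at h1
  have h2 : IsUnit (A.fac 0 0) := isUnit_of_dvd_unit h1 ((IsUnit.mk0 y hy).map MvPolynomial.C)
  obtain ⟨z, -, hz⟩ := MvPolynomial.isUnit_iff_eq_C_of_isReduced.1 h2
  exact fac_ne_C hG 0 0 z hz

theorem iso_teqn : iso K s (n + 1) (teqn A lam κ) =
    Polynomial.C (gpr κ n) * Polynomial.X ^ 2 +
      Polynomial.C (MvPolynomial.C (MvPolynomial.C (κ 0)) * gpr κ n -
        MvPolynomial.C (bPhi A lam) * ∏ j : Fin s, MvPolynomial.X j) * Polynomial.X +
      Polynomial.C (gpr κ n) := by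
  unfold teqn cfac tPhi cmon gpr
  rw [Fin.prod_univ_succ, Fin.prod_univ_succ]
  simp only [map_sub, map_mul, map_add, map_pow, map_one, map_prod, iso_zero, iso_succ, iso_C,
    iso_rename]
  ring

theorem irreducible_iso (hG : A.Graphs) (hl : lam ≠ 0) {y : K} (hy : y ≠ 0)
    (hκ : ∀ j, y ^ 2 + κ j * y + 1 ≠ 0) : Irreducible (iso K s (n + 1) (teqn A lam κ)) := by
  rw [iso_teqn]
  have hF : bPhi A lam ≠ 0 := bPhi_ne_zero hG hl
  refine irreducible_quad (gpr_ne_zero κ) ?_ ?_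
  · intro p h1 h2
    refine isRelPrime_fac (fun j : Fin s => MvPolynomial.C (κ j.succ)) hF h1 ?_
    have h3 : MvPolynomial.C (bPhi A lam) * ∏ j : Fin s, MvPolynomial.X j =
        MvPolynomial.C (MvPolynomial.C (κ 0)) * gpr κ n -
        (MvPolynomial.C (MvPolynomial.C (κ 0)) * gpr κ n -
          MvPolynomial.C (bPhi A lam) * ∏ j : Fin s, MvPolynomial.X j) := by ring
    rw [h3]
    exact dvd_sub (Dvd.dvd.mul_left h1 _) h2
  · intro α β γ δ h1 h2 h3
    set φ : MvPolynomial (Fin s) (MvPolynomial (Fin (n + 1)) K) →+* MvPolynomial (Fin (n + 1)) K :=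
      MvPolynomial.eval (fun _ : Fin s => (MvPolynomial.C y : MvPolynomial (Fin (n + 1)) K)) with hφ
    set g : K := ∏ j : Fin s, (y ^ 2 + κ j.succ * y + 1) with hg
    have hg0 : g ≠ 0 := Finset.prod_ne_zero_iff.2 fun j _ => hκ j.succ
    have hgu : IsUnit (MvPolynomial.C g : MvPolynomial (Fin (n + 1)) K) :=
      (IsUnit.mk0 g hg0).map MvPolynomial.C
    have e1 := congrArg φ h1
    have e2 := congrArg φ h2
    have e3 := congrArg φ h3
    rw [map_mul, hφ, eval_gpr, ← hφ, ← hg] at e1 e2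
    have u1 : IsUnit (φ α) := isUnit_of_mul_isUnit_left (e1 ▸ hgu)
    have u2 : IsUnit (φ γ) := isUnit_of_mul_isUnit_right (e1 ▸ hgu)
    have u3 : IsUnit (φ β) := isUnit_of_mul_isUnit_left (e2 ▸ hgu)
    have u4 : IsUnit (φ δ) := isUnit_of_mul_isUnit_right (e2 ▸ hgu)
    obtain ⟨y1, -, w1⟩ := MvPolynomial.isUnit_iff_eq_C_of_isReduced.1 u1
    obtain ⟨y2, -, w2⟩ := MvPolynomial.isUnit_iff_eq_C_of_isReduced.1 u2
    obtain ⟨y3, -, w3⟩ := MvPolynomial.isUnit_iff_eq_C_of_isReduced.1 u3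
    obtain ⟨y4, -, w4⟩ := MvPolynomial.isUnit_iff_eq_C_of_isReduced.1 u4
    rw [map_add, map_mul, map_mul, map_sub, map_mul, map_mul, map_prod, hφ, eval_gpr, ← hφ, ← hg,
      w1, w2, w3, w4] at e3
    simp only [hφ, MvPolynomial.eval_C, MvPolynomial.eval_X, Finset.prod_const, Finset.card_univ,
      Fintype.card_fin] at e3
    have hys : y ^ s ≠ 0 := pow_ne_zero _ hy
    refine bPhi_ne_C hG hl ((κ 0 * g - (y1 * y4 + y3 * y2)) * (y ^ s)⁻¹) ?_
    have h5 : bPhi A lam * MvPolynomial.C (y ^ s) =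
        MvPolynomial.C (κ 0 * g - (y1 * y4 + y3 * y2)) := by
      rw [map_sub, map_add, map_mul, map_mul, map_mul, map_pow]
      linear_combination e3
    rw [map_mul, ← h5, mul_assoc, ← map_mul, mul_inv_cancel₀ hys, map_one, mul_one]

theorem prime_teqn (hG : A.Graphs) (hl : lam ≠ 0) {y : K} (hy : y ≠ 0)
    (hκ : ∀ j, y ^ 2 + κ j * y + 1 ≠ 0) : Prime (teqn A lam κ) := by
  rw [← MulEquiv.prime_iff (iso K s (n + 1))]
  exact (irreducible_iso hG hl hy hκ).prime

theorem isDomain_TRing (hG : A.Graphs) (hl : lam ≠ 0) {y : K} (hy : y ≠ 0)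
    (hκ : ∀ j, y ^ 2 + κ j * y + 1 ≠ 0) : IsDomain (TRing A lam κ) := by
  have hp := prime_teqn hG hl hy hκ
  have : (Ideal.span {teqn A lam κ}).IsPrime :=
    (Ideal.span_singleton_prime hp.ne_zero).2 hp
  exact Ideal.Quotient.isDomain (Ideal.span {teqn A lam κ})

theorem tdel_ne_zero (hG : A.Graphs) (hl : lam ≠ 0) : tdel A lam κ ≠ 0 := by
  intro h
  have h1 : tPhi A lam s * cmon K s n ∈ Ideal.span {teqn A lam κ} :=
    Ideal.Quotient.eq_zero_iff_mem.1 h
  rw [Ideal.mem_span_singleton] at h1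
  have h2 := map_dvd (iso K s (n + 1)) h1
  have hF : bPhi A lam ≠ 0 := bPhi_ne_zero hG hl
  have hM : (MvPolynomial.C (bPhi A lam) * ∏ j : Fin s, MvPolynomial.X j :
      MvPolynomial (Fin s) (MvPolynomial (Fin (n + 1)) K)) ≠ 0 := by
    refine mul_ne_zero ?_ (Finset.prod_ne_zero_iff.2 fun j _ => MvPolynomial.X_ne_zero j)
    rwa [Ne, MvPolynomial.C_eq_zero]
  have e : iso K s (n + 1) (tPhi A lam s * cmon K s n) =
      Polynomial.C (MvPolynomial.C (bPhi A lam) * ∏ j : Fin s, MvPolynomial.X j) *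
        Polynomial.X := by
    unfold tPhi cmon
    rw [Fin.prod_univ_succ]
    simp only [map_mul, map_prod, iso_zero, iso_succ, iso_rename]
    ring
  rw [e, iso_teqn] at h2
  have h3 := Polynomial.natDegree_le_of_dvd h2
    (mul_ne_zero (by rwa [Ne, Polynomial.C_eq_zero]) Polynomial.X_ne_zero)
  rw [Polynomial.natDegree_quadratic (gpr_ne_zero κ), Polynomial.natDegree_C_mul_X _ hM] at h3
  omega

end Domain

section LiftT

variable {K : Type*} [Field K] {s n : ℕ} {A : Tower K n} {lam : K} {κ : Fin (s + 1) → K}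
  {S : Type*} [Field S]

/-- The extension of a homomorphism with `Φ ∏_j z_j ↦ g ≠ 0` to the ring of the open part. -/
noncomputable def liftT (g : TRing A lam κ →+* S) (hg : g (tdel A lam κ) ≠ 0) :
    TOpen A lam κ →+* S :=
  AdjoinRoot.lift g (g (tdel A lam κ))⁻¹ (by
    unfold teqnO
    simp only [Polynomial.eval₂_sub, Polynomial.eval₂_mul, Polynomial.eval₂_X,
      Polynomial.eval₂_C, Polynomial.eval₂_one]
    rw [mul_inv_cancel₀ hg, sub_self])

theorem liftT_toT (g : TRing A lam κ →+* S) (hg : g (tdel A lam κ) ≠ 0)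
    (b : TRing A lam κ) : liftT g hg (toT A lam κ b) = g b :=
  AdjoinRoot.lift_of _

theorem liftT_mk (g : TRing A lam κ →+* S) (hg : g (tdel A lam κ) ≠ 0)
    (p : Polynomial (TRing A lam κ)) :
    liftT g hg (AdjoinRoot.mk (teqnO A lam κ) p : AdjoinRoot (teqnO A lam κ)) =
      p.eval₂ g (g (tdel A lam κ))⁻¹ :=
  AdjoinRoot.lift_mk _ p

end LiftT

end Pool.Agent.T6.H53.CT
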