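import Pool.Agent.T6.H53.CT.Final
import Pool.Agent.T6.H53.CT.Scale
set_option autoImplicit false

/-!
Beilinson's conjecture on regulators in weight `d = dim X + 1`, for `i = dim X`: on the varieties
`∏_j (z_j + κ_j + 1/z_j) = λ g(x) ∏_j ∏_i (x_j - φ_{j,i}(x_{j+1}, ..., x_n))` of dimension
`s + n + 1` over an arbitrary number field, where the `φ_{j,i}` and `g` are arbitrary polynomials (for
each `j` the `φ_{j,i}` are different; their graphs may cross and touch each other in any way), there
are `∏_j r_j` unramified classes in Milnor K-theory with linearly independent regulators, for all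
large and sufficiently divisible `λ`. For `s = 0` these are double covers of the affine space, for
`s ≥ 1` fibrations in Calabi-Yau varieties of dimension `s`.
-/

namespace Pool.Agent.T6.H53.CT.TowerFibrations

open Pool.Agent.TH826.MK (KQ symb Unramified Torus)

open Pool.Agent.Y797.TW (Tower)

open Pool.Agent.T6.H53.CT

open Polynomial in
theorem two_root_ne {K : Type*} [Field K] [CharZero K] {k : K} {N : ℕ} (hN0 : N ≠ 0)
    (h : (X ^ 2 + C k * X + 1 : K[X]) ∣ X ^ N - 1) : (2 : K) ^ 2 + k * 2 + 1 ≠ 0 := by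
  intro h0
  obtain ⟨q, hq⟩ := h
  have h1 := congrArg (eval 2) hq
  simp only [eval_sub, eval_mul, eval_add, eval_pow, eval_X, eval_C, eval_one] at h1
  rw [h0, zero_mul, sub_eq_zero] at h1
  have h2 : (2 : ℕ) ^ N = 1 := by exact_mod_cast h1
  exact absurd h2 (Nat.one_lt_pow hN0 (by norm_num)).ne'

section defs

variable {K : Type*} [Field K] {s n : ℕ}

/-- The `κ_j` are integral and the `X² + κ_j X + 1` divide `X^N - 1` for some `N > 0`. -/
def Cyclotomic (κ : Fin (s + 1) → K) : Prop :=
  (∀ j, IsIntegral ℤ (κ j)) ∧ ∃ N : ℕ, N ≠ 0 ∧ ∀ j,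
    (Polynomial.X ^ 2 + Polynomial.C (κ j) * Polynomial.X + 1 : Polynomial K) ∣
      Polynomial.X ^ N - 1

/-- At all complex points of the hypersurface `∏_j (z_j² + κ_j z_j + 1) = Φ ∏_j z_j` at which no
`z_j` vanishes and which do not lie over a singular point of `Φ = 0`, the gradient of the equation is
not `0`. In particular the open part `Φ ∏_j z_j ≠ 0` is smooth. -/
def SmoothPoints (σ : K →+* ℂ) (A : Tower K n) (lam : K) (κ : Fin (s + 1) → K) : Prop :=
  ∀ p : Fin (s + 1) ⊕ Fin (n + 1) → ℂ, (∀ j, p (Sum.inl j) ≠ 0) →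
    (MvPolynomial.eval₂ σ (fun j => p (Sum.inr j)) A.prod = 0 →
      ∃ i, MvPolynomial.eval₂ σ (fun j => p (Sum.inr j)) (MvPolynomial.pderiv i A.prod) ≠ 0) →
    MvPolynomial.eval₂ σ p (teqn A lam κ) = 0 →
    ∃ i, MvPolynomial.eval₂ σ p (MvPolynomial.pderiv i (teqn A lam κ)) ≠ 0

/-- The symbols are unramified at all discrete valuations of the fraction field of the coordinate
ring of the hypersurface. -/
def UnramifiedSymbols.{u, v} {K : Type u} [Field K] (A : Tower K n) (lam : K)
    (κ : Fin (s + 1) → K) : Prop :=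
  ∀ (L : Type v) [Field L] [Algebra (TRing A lam κ) L] [IsFractionRing (TRing A lam κ) L],
    ∃ f : TOpen A lam κ →+* L,
      (∀ b : TRing A lam κ, f (toT A lam κ b) = algebraMap (TRing A lam κ) L b) ∧
      ∀ k : (∀ j, Fin (A.r j)),
        KQ.map (s + (n + 1) + 1) f (symb (tent A lam κ k)) ∈ Unramified L (s + (n + 1) + 1)

/-- There are `∏_j r_j` tori of dimension `s + n + 1` in the complex points (over `σ`) of the open
part, such that the determinant of the regulators of the `∏_j r_j` symbols on the tori does not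
vanish. -/
def IndependentRegulators (σ : K →+* ℂ) (A : Tower K n) (lam : K) (κ : Fin (s + 1) → K) : Prop :=
  ∃ Γ : (∀ j, Fin (A.r j)) → Torus (TOpen A lam κ) (s + (n + 1)),
    (∀ t θ (x : K), (Γ t).e θ (tcst A lam κ x) = σ x) ∧
    (Matrix.of fun t k : (∀ j, Fin (A.r j)) => (Γ t).reg (symb (tent A lam κ k))).det ≠ 0

end defs

/-- Let `σ` be a complex embedding of the number field `K`, let `s, n ≥ 0`, let `κ_0, ..., κ_s` be
integers of `K` such that the polynomials `X² + κ_j X + 1` divide `X^N - 1` (e.g.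
`κ_j ∈ {0, 1, -1}`, `N = 12`). For `0 ≤ j ≤ n` let `r_j ≥ 0`, and let `φ_{j,0}, ..., φ_{j,r_j}` be
different polynomials in the variables `x_{j+1}, ..., x_n` with coefficients in `K`, and let `g ≠ 0`
be a polynomial in `x_0, ..., x_n` with coefficients in `K`. There are an integer `M > 0`, with
`M = 1` if the coefficients of all `φ_{j,i}` and of `g` are algebraic integers, and a constant `C`
such that for all `λ` in `K` with `λ / M` integral and `|σ λ| ≥ C` the following holds for the
hypersurface `∏_j (z_j² + κ_j z_j + 1) = Φ ∏_j z_j`, `Φ = λ g ∏_j ∏_i (x_j - φ_{j,i})`, in the affine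
space with the coordinates `z_0, ..., z_s, x_0, ..., x_n`:

its coordinate ring is a domain; it is smooth at all complex points over `σ` with `z_j ≠ 0` that do
not lie over singular points of `Φ = 0`; for all `k = (k_0, ..., k_n)`, `0 ≤ k_j < r_j`, the symbol
`{z_0, ..., z_s, (x_0 - φ_{0,k_0+1})/(x_0 - φ_{0,0}), ..., (x_n - φ_{n,k_n+1})/(x_n - φ_{n,0})}` on
the open part `Φ ∏_j z_j ≠ 0` is unramified at all discrete valuations of the function field; and
there are `∏_j r_j` tori of dimension `s + n + 1` in the complex points (over `σ`) of the open part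
such that the determinant of the regulators of these `∏_j r_j` symbols on the tori does not
vanish. -/
theorem result.{u, v} (s n : ℕ) (K : Type u) [Field K] [NumberField K] (σ : K →+* ℂ)
    (κ : Fin (s + 1) → K) (hκ : Cyclotomic κ) (A : Tower K n) (hG : A.Graphs) :
    ∃ M : ℕ, M ≠ 0 ∧ (A.Integral → M = 1) ∧ ∃ C : ℝ, ∀ lam : K, IsIntegral ℤ (lam / M) →
      C ≤ ‖σ lam‖ → IsDomain (TRing A lam κ) ∧ SmoothPoints σ A lam κ ∧
        UnramifiedSymbols.{u, v} A lam κ ∧ IndependentRegulators σ A lam κ := by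
  obtain ⟨hκ1, N, hN0, hN⟩ := hκ
  obtain ⟨M, hM0, hM1, D, hD, hM⟩ := exists_scaling A hG
  obtain ⟨c1, hc1, h⟩ := exists_tori σ κ hG
  obtain ⟨c2, -, h2⟩ := exists_smooth σ A κ
  refine ⟨M, hM0, hM1, max c1 c2, fun lam hlam hl => ?_⟩
  have hl1 : c1 ≤ ‖σ lam‖ := (le_max_left _ _).trans hl
  have hl0 : lam ≠ 0 := by
    intro h0
    rw [h0, map_zero, norm_zero] at hl1
    linarith
  refine ⟨isDomain_TRing hG hl0 two_ne_zero fun j => two_root_ne hN0 (hN j),
    h2 lam ((le_max_right _ _).trans hl), ?_, h lam hl1⟩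
  intro L _ _ _
  have hinj : Function.Injective (algebraMap (TRing A lam κ) L) := IsFractionRing.injective _ _
  have hne : algebraMap (TRing A lam κ) L (tdel A lam κ) ≠ 0 := by
    rw [Ne, map_eq_zero_iff _ hinj]
    exact tdel_ne_zero hG hl0
  refine ⟨liftT (algebraMap (TRing A lam κ) L) hne, fun b => liftT_toT _ _ _, fun k => ?_⟩
  exact symb_mem_unramified _ hG hD (hM lam hlam) hκ1 hN0 hN k

end Pool.Agent.T6.H53.CT.TowerFibrations
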